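import Mathlib

open MeasureTheory Filter Topology Metric Set
open scoped ENNReal

namespace Pool.Agent.H58.Rough

/-- The plane. -/
abbrev E2 := EuclideanSpace ℝ (Fin 2)

/-- The point with coordinates `a`, `b`. -/
noncomputable def pt (a b : ℝ) : E2 := !₂[a, b]

@[simp] lemma pt_zero (a b : ℝ) : pt a b 0 = a := rfl
@[simp] lemma pt_one (a b : ℝ) : pt a b 1 = b := rfl

lemma pt_coord (y : E2) : pt (y 0) (y 1) = y := by
  ext i; fin_cases i <;> rfl

/-- The measurable equivalence between the plane and `ℝ × ℝ`. -/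
noncomputable def toProd : E2 ≃ᵐ ℝ × ℝ :=
  (MeasurableEquiv.toLp 2 (Fin 2 → ℝ)).symm.trans MeasurableEquiv.finTwoArrow

lemma toProd_apply (y : E2) : toProd y = (y 0, y 1) := rfl

lemma toProd_symm_apply (p : ℝ × ℝ) : toProd.symm p = pt p.1 p.2 := by
  apply toProd.injective
  rw [MeasurableEquiv.apply_symm_apply, toProd_apply]
  rfl

lemma toProd_mp : MeasurePreserving toProd volume volume :=
  (EuclideanSpace.volume_preserving_symm_measurableEquiv_toLp (Fin 2)).trans
    (volume_preserving_finTwoArrow ℝ)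

lemma toProd_symm_mp : MeasurePreserving toProd.symm volume volume := toProd_mp.symm

lemma measurable_pt : Measurable fun p : ℝ × ℝ => pt p.1 p.2 := by
  have : (fun p : ℝ × ℝ => pt p.1 p.2) = toProd.symm := by
    funext p; rw [toProd_symm_apply]
  rw [this]
  exact toProd.symm.measurable

lemma ae_ne_zero : ∀ᵐ a : ℝ, a ≠ 0 := by
  rw [ae_iff]
  simp

lemma lintegral_scale (a : ℝ) (ha : a ≠ 0) (F : ℝ → ℝ≥0∞) (hF : Measurable F) :
    ∫⁻ b, F b = ENNReal.ofReal |a| * ∫⁻ s, F (a * s) := by
  have h1 : ∫⁻ s, F (a * s) = ENNReal.ofReal |a⁻¹| * ∫⁻ b, F b := by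
    have h2 := Real.map_volume_mul_left ha
    have h3 : ∫⁻ s, F (a * s) = ∫⁻ b, F b ∂(Measure.map (fun x => a * x) volume) := by
      rw [lintegral_map hF (measurable_const_mul a)]
    rw [h3, h2, lintegral_smul_measure]
    rfl
  rw [h1, ← mul_assoc, ← ENNReal.ofReal_mul (abs_nonneg _), ← abs_mul, mul_inv_cancel₀ ha]
  simp

/-- Change of variables `(a, s) ↦ (a, a s)` for nonnegative functions. -/
lemma lintegral_E2 (F : E2 → ℝ≥0∞) (hF : Measurable F) :
    ∫⁻ y, F y = ∫⁻ a : ℝ, ∫⁻ s : ℝ, ENNReal.ofReal |a| * F (pt a (a * s)) := by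
  have h1 : ∫⁻ y, F y = ∫⁻ p : ℝ × ℝ, F (pt p.1 p.2) := by
    rw [← toProd_symm_mp.lintegral_comp hF]
    simp_rw [toProd_symm_apply]
  rw [h1, Measure.volume_eq_prod,
    lintegral_prod (fun p : ℝ × ℝ => F (pt p.1 p.2)) (hF.comp measurable_pt).aemeasurable]
  apply lintegral_congr_ae
  filter_upwards [ae_ne_zero] with a ha
  rw [lintegral_const_mul]
  · exact lintegral_scale a ha (fun b => F (pt a b))
      (hF.comp (measurable_pt.comp (measurable_const.prodMk measurable_id)))
  · exact hF.comp (measurable_pt.comp (measurable_const.prodMk (measurable_const_mul a)))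

/-- Change of variables `(a, s) ↦ (a, a s)` for integrable functions. -/
lemma integral_E2 (F : E2 → ℝ) (hF : Integrable F) :
    ∫ y, F y = ∫ a : ℝ, ∫ s : ℝ, |a| * F (pt a (a * s)) := by
  have h0 : Integrable (fun p : ℝ × ℝ => F (pt p.1 p.2)) := by
    have := toProd_symm_mp.integrable_comp_emb toProd.symm.measurableEmbedding (g := F)
    have h2 : F ∘ toProd.symm = fun p : ℝ × ℝ => F (pt p.1 p.2) := by
      funext p; simp [toProd_symm_apply]
    rw [h2] at this
    exact this.mpr hF
  have h1 : ∫ y, F y = ∫ p : ℝ × ℝ, F (pt p.1 p.2) := by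
    rw [← toProd_symm_mp.integral_comp toProd.symm.measurableEmbedding]
    simp_rw [toProd_symm_apply]
  rw [h1, Measure.volume_eq_prod]
  rw [integral_prod _ (by rw [← Measure.volume_eq_prod]; exact h0)]
  apply integral_congr_ae
  filter_upwards [ae_ne_zero] with a ha
  rw [integral_const_mul]
  have := Measure.integral_comp_mul_left (fun b => F (pt a b)) a
  rw [this, smul_eq_mul, ← mul_assoc, ← abs_mul, mul_inv_cancel₀ ha]
  simp

/-- Integrability of the outer integrand in `integral_E2`. -/
lemma integrable_outer (F : E2 → ℝ) (hF : Integrable F) :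
    Integrable fun a : ℝ => ∫ s : ℝ, |a| * F (pt a (a * s)) := by
  have h0 : Integrable (fun p : ℝ × ℝ => F (pt p.1 p.2)) := by
    have := toProd_symm_mp.integrable_comp_emb toProd.symm.measurableEmbedding (g := F)
    have h2 : F ∘ toProd.symm = fun p : ℝ × ℝ => F (pt p.1 p.2) := by
      funext p; simp [toProd_symm_apply]
    rw [h2] at this
    exact this.mpr hF
  rw [Measure.volume_eq_prod] at h0
  refine h0.integral_prod_left.congr ?_
  filter_upwards [ae_ne_zero] with a ha
  rw [integral_const_mul]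
  have := Measure.integral_comp_mul_left (fun b => F (pt a b)) a
  rw [this, smul_eq_mul, ← mul_assoc, ← abs_mul, mul_inv_cancel₀ ha]
  simp

end Pool.Agent.H58.Rough
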