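import Pool.Agent.H58.Rough.Func

open MeasureTheory Filter Topology Metric Set
open scoped ENNReal Real NNReal

namespace Pool.Agent.H58.Rough

/-- Consequence of a bounded-mean-oscillation estimate for the functionals `Λ J`. -/
lemma Λ_bounded_of_bmo (ω : X) (C : ℝ)
    (hC : ∀ (f : E2 → ℝ) (M : ℝ), Measurable f → HasCompactSupport f → (∀ x, |f x| ≤ M) →
      ∀ g : E2 → ℝ,
        (∀ᵐ x ∂(volume : Measure E2),
          Tendsto (fun ε : ℝ => ∫ y in {y : E2 | ε < ‖y‖}, K (rep ω) y * f (x - y))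
            (𝓝[>] 0) (𝓝 (g x))) →
        ∀ (c : E2) (r : ℝ), 0 < r →
          IntegrableOn g (ball c r) volume ∧
          (⨍ x in ball c r, |g x - ⨍ y in ball c r, g y|) ≤ C * M) (J : ℕ) :
    ‖Λ J ω‖ ≤ volume.real (ball (0 : E2) 1) * C := by
  set B : Set E2 := ball 0 1 with hB
  have hvol : volume B < ∞ := measure_ball_lt_top
  have hvol0 : volume B ≠ 0 := (measure_ball_pos _ _ one_pos).ne'
  set g : E2 → ℝ := fun x => ∫ y, G (rep ω) (tf J) x y with hg
  obtain ⟨L, hL⟩ := tf_lipschitz J
  have hpv : ∀ x, Tendsto (fun ε : ℝ => ∫ y in {y : E2 | ε < ‖y‖}, K (rep ω) y * tf J (x - y))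
      (𝓝[>] 0) (𝓝 (g x)) := fun x =>
    tendsto_pv (rep_adm ω) hL (fun z => abs_tf_le J z) (tf_zero_of_far J) x
  obtain ⟨hint, hbmo⟩ := hC (tf J) 1 (tf_continuous J).measurable (tf_hasCompactSupport J)
    (abs_tf_le J) g (Eventually.of_forall hpv) 0 1 one_pos
  rw [← hB] at hint hbmo
  set m : ℝ := ⨍ y in B, g y with hm
  have hgh : ∀ x ∈ B, g x = hJ (rep ω) J x := by
    intro x hx
    rw [hB, mem_ball, dist_zero_right] at hx
    exact (integral_G_eq (rep_adm ω) (tf_continuous J) (fun z => abs_tf_le J z)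
      (tf_zero_of_far J) x (near_of_norm_lt hx)).2
  -- the coordinate has mean zero on the ball
  have hcoordint : IntegrableOn (fun x : E2 => x 1) B := by
    refine IntegrableOn.of_bound hvol (measurable_coord 1).aestronglyMeasurable 1 ?_
    filter_upwards [ae_restrict_mem measurableSet_ball] with x hx
    rw [mem_ball, dist_zero_right] at hx
    exact (coord_lt hx).2.le
  have hmean : ∫ x in B, x 1 = 0 := by
    rw [← integral_indicator measurableSet_ball]
    set F : E2 → ℝ := B.indicator fun x => x 1 with hF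
    have h1 : ∀ x, F (-x) = -F x := by
      intro x
      by_cases hx : x ∈ B
      · have hx' : -x ∈ B := by simpa [hB] using hx
        rw [hF, indicator_of_mem hx, indicator_of_mem hx']
        rfl
      · have hx' : -x ∉ B := by simpa [hB] using hx
        rw [hF, indicator_of_notMem hx, indicator_of_notMem hx', neg_zero]
    have h2 : ∫ x, F x = -∫ x, F x := by
      conv_lhs => rw [← integral_neg_eq_self]
      rw [← integral_neg]
      exact integral_congr_ae (Eventually.of_forall h1)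
    linarith
  have hgm : IntegrableOn (fun x => |g x - m|) B :=
    (hint.sub (integrableOn_const hvol.ne)).abs
  have hprod : IntegrableOn (fun x : E2 => x 1 * (g x - m)) B := by
    refine Integrable.mono' hgm ?_ ?_
    · exact (measurable_coord 1).aestronglyMeasurable.mul
        (hint.aestronglyMeasurable.sub aestronglyMeasurable_const)
    · filter_upwards [ae_restrict_mem measurableSet_ball] with x hx
      rw [mem_ball, dist_zero_right] at hx
      rw [norm_mul, Real.norm_eq_abs, Real.norm_eq_abs]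
      calc |x 1| * |g x - m| ≤ 1 * |g x - m| := by
            gcongr; exact (coord_lt hx).2.le
        _ = _ := one_mul _
  have hΛ : Λ J ω = ∫ x in B, x 1 * (g x - m) := by
    have h1 : ∫ x in B, x 1 * (g x - m) + x 1 * m = ∫ x in B, x 1 * (g x - m) := by
      rw [integral_add hprod (hcoordint.mul_const m), integral_mul_const, hmean, zero_mul, add_zero]
    rw [← h1, Λ_apply]
    apply setIntegral_congr_fun measurableSet_ball
    intro x hx
    simp only
    rw [← hgh x hx]
    ring
  have havg : ∫ x in B, |g x - m| ≤ volume.real B * C := by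
    rw [setAverage_eq, smul_eq_mul, mul_one] at hbmo
    have hpos : 0 < volume.real B := ENNReal.toReal_pos hvol0 hvol.ne
    rw [inv_mul_le_iff₀ hpos] at hbmo
    exact hbmo
  rw [hΛ]
  refine (norm_integral_le_integral_norm _).trans (le_trans ?_ havg)
  apply setIntegral_mono_on hprod.norm hgm measurableSet_ball
  intro x hx
  rw [hB, mem_ball, dist_zero_right] at hx
  rw [norm_mul, Real.norm_eq_abs, Real.norm_eq_abs]
  calc |x 1| * |g x - m| ≤ 1 * |g x - m| := by
        gcongr; exact (coord_lt hx).2.le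
    _ = _ := one_mul _

lemma no_uniform_bound : ¬ ∀ ω : X, ∃ C : ℝ, ∀ J : ℕ, ‖Λ J ω‖ ≤ C := by
  intro h
  obtain ⟨C', hC'⟩ := banach_steinhaus h
  obtain ⟨c, C, hc, hlow⟩ := Λ_ωJ
  have key : ∀ n : ℕ, c * (n : ℝ) ^ 2 - C ≤ |C'| * (Real.sqrt π * n) := by
    intro n
    have h1 := hlow (n ^ 2)
    have h2 : ‖ωJ (n ^ 2)‖ = Real.sqrt π * n := by
      have h3 := norm_ωJ (n ^ 2)
      have h4 : ‖ωJ (n ^ 2)‖ ^ 2 = (Real.sqrt π * n) ^ 2 := by
        rw [h3, mul_pow, Real.sq_sqrt Real.pi_pos.le]
        push_cast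
        ring
      exact (sq_eq_sq₀ (norm_nonneg _) (by positivity)).mp h4
    have h5 : |Λ (n ^ 2) (ωJ (n ^ 2))| ≤ |C'| * (Real.sqrt π * n) := by
      rw [← Real.norm_eq_abs, ← h2]
      calc ‖Λ (n ^ 2) (ωJ (n ^ 2))‖ ≤ ‖Λ (n ^ 2)‖ * ‖ωJ (n ^ 2)‖ := (Λ (n ^ 2)).le_opNorm _
        _ ≤ |C'| * ‖ωJ (n ^ 2)‖ := by gcongr; exact (hC' _).trans (le_abs_self _)
    push_cast at h1
    linarith
  -- contradiction for large `n`
  obtain ⟨n, hn⟩ := exists_nat_gt ((|C'| * Real.sqrt π + |C| + 1) / c)
  have hn' : |C'| * Real.sqrt π + |C| + 1 < c * n := by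
    rw [div_lt_iff₀ hc] at hn
    linarith
  have hn1 : (1 : ℝ) ≤ n := by
    have h0 : 0 < (n : ℝ) := by
      have : 0 < (|C'| * Real.sqrt π + |C| + 1) / c := by positivity
      linarith
    exact_mod_cast Nat.one_le_iff_ne_zero.mpr (by rintro rfl; simp at h0)
  have hk := key n
  have h6 := le_abs_self C
  have h7 : 0 ≤ |C| := abs_nonneg C
  nlinarith

end Pool.Agent.H58.Rough
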