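import Pool.Agent.H58.Rough.Pointwise

open MeasureTheory Filter Topology Metric Set
open scoped ENNReal Real NNReal

namespace Pool.Agent.H58.Rough

lemma K_congr_ae {r r' : ℝ → ℝ} (h : r =ᵐ[volume] r') : K r =ᵐ[volume] K r' := by
  obtain ⟨Z, hsub, hZm, hZ0⟩ := exists_measurable_superset_of_null (ae_iff.mp h)
  have h1 : ∫⁻ y : E2, Z.indicator (fun _ => (1 : ℝ≥0∞)) (y 1 / y 0) = 0 := by
    rw [lintegral_E2]
    · rw [lintegral_eq_zero_iff']
      · filter_upwards [ae_ne_zero] with a ha
        simp only [pt_zero, pt_one, mul_div_cancel_left₀ _ ha, Pi.zero_apply]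
        rw [lintegral_const_mul _ (measurable_const.indicator hZm), lintegral_indicator hZm]
        simp [hZ0]
      · apply Measurable.aemeasurable
        apply Measurable.lintegral_prod_right (f := fun (a : ℝ) (s : ℝ) => ENNReal.ofReal |a| *
          Z.indicator (fun _ => (1 : ℝ≥0∞)) (pt a (a * s) 1 / pt a (a * s) 0))
        simp only [pt_zero, pt_one]
        have h2 : Measurable fun p : ℝ × ℝ => p.1 * p.2 / p.1 := by fun_prop
        have h3 : Measurable fun p : ℝ × ℝ => ENNReal.ofReal |p.1| := by fun_prop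
        exact h3.mul ((measurable_const.indicator hZm).comp h2)
    · exact (measurable_const.indicator hZm).comp ((measurable_coord 1).div (measurable_coord 0))
  rw [lintegral_eq_zero_iff] at h1
  · filter_upwards [h1] with y hy
    have : y 1 / y 0 ∉ Z := by
      intro hmem
      simp [indicator_of_mem hmem] at hy
    have h2 : r (y 1 / y 0) = r' (y 1 / y 0) := by
      by_contra hne
      exact this (hsub hne)
    unfold K
    rw [h2]
  · exact (measurable_const.indicator hZm).comp ((measurable_coord 1).div (measurable_coord 0))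

lemma hJ_congr {r r' : ℝ → ℝ} (h : r =ᵐ[volume] r') (J : ℕ) (x : E2) : hJ r J x = hJ r' J x := by
  unfold hJ
  apply integral_congr_ae
  filter_upwards [K_congr_ae h] with y hy
  rw [hy]

lemma hJ_add {r r' : ℝ → ℝ} (hr : Adm r) (hr' : Adm r') (J : ℕ) {x : E2} (hx : ‖x‖ < 1) :
    hJ (fun s => r s + r' s) J x = hJ r J x + hJ r' J x := by
  unfold hJ
  rw [← integral_add (integrable_Ktf hr J hx) (integrable_Ktf hr' J hx)]
  congr 1
  funext y
  unfold K
  ring

lemma hJ_smul (c : ℝ) (r : ℝ → ℝ) (J : ℕ) (x : E2) :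
    hJ (fun s => c * r s) J x = c * hJ r J x := by
  unfold hJ
  rw [← integral_const_mul]
  congr 1
  funext y
  unfold K
  ring

lemma hJ_bound (J : ℕ) : ∃ D : ℝ, 0 ≤ D ∧ ∀ r, Adm r → ∀ x : E2, ‖x‖ < 1 →
    |hJ r J x| ≤ D * (∫⁻ s, ‖r s‖ₑ).toReal := by
  set ρ : ℝ := 1 + 6 * R J with hρ
  have hR := R_pos J
  refine ⟨2 * ρ * (4 / 7), by positivity, fun r hr x hx => ?_⟩
  set S : Set E2 := {y : E2 | 7 ≤ ‖y‖ ∧ ‖y‖ ≤ ρ} with hS
  have hms : MeasurableSet S :=
    (measurableSet_le measurable_const measurable_norm).inter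
      (measurableSet_le measurable_norm measurable_const)
  have h1 : ‖hJ r J x‖ₑ ≤ ∫⁻ y in S, ‖K r y‖ₑ := by
    unfold hJ
    refine (enorm_integral_le_lintegral_enorm _).trans ?_
    rw [← lintegral_indicator hms]
    apply lintegral_mono
    intro y
    change ‖K r y * tf J (x - y)‖ₑ ≤ _
    by_cases hy : y ∈ S
    · rw [indicator_of_mem hy, enorm_mul]
      have : ‖tf J (x - y)‖ₑ ≤ 1 := by
        rw [← ofReal_norm]
        calc ENNReal.ofReal ‖tf J (x - y)‖ ≤ ENNReal.ofReal 1 :=
              ENNReal.ofReal_le_ofReal (abs_tf_le J _)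
          _ = 1 := ENNReal.ofReal_one
      calc ‖K r y‖ₑ * ‖tf J (x - y)‖ₑ ≤ ‖K r y‖ₑ * 1 := by gcongr
        _ = ‖K r y‖ₑ := mul_one _
    · have hz : tf J (x - y) = 0 := by
        rw [hS, mem_ofPred_eq, not_and_or, not_le, not_le] at hy
        rcases hy with hy | hy
        · exact (near_of_norm_lt hx y hy).1
        · exact (f_zero_of_far (tf_zero_of_far J) (x := x) (by linarith)).1
      simp [hz]
  have h2 := hr.lintegral_annulus (ε := 7) (ρ := ρ) (by norm_num)
  rw [lintegral_const_mul _ hr.meas.enorm] at h2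
  have h3 : ‖hJ r J x‖ₑ ≤ ENNReal.ofReal (2 * ρ) * (ENNReal.ofReal (4 / 7) * ∫⁻ s, ‖r s‖ₑ) :=
    h1.trans h2
  have h4 : ENNReal.ofReal (2 * ρ) * (ENNReal.ofReal (4 / 7) * ∫⁻ s, ‖r s‖ₑ) ≠ ∞ :=
    (ENNReal.mul_lt_top ENNReal.ofReal_lt_top
      (ENNReal.mul_lt_top ENNReal.ofReal_lt_top hr.l1)).ne
  have h5 := ENNReal.toReal_mono h4 h3
  rw [ENNReal.toReal_mul, ENNReal.toReal_mul, ENNReal.toReal_ofReal (by positivity),
    ENNReal.toReal_ofReal (by positivity), toReal_enorm, Real.norm_eq_abs] at h5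
  linarith

lemma hJ_measurable {r : ℝ → ℝ} (hr : Measurable r) (J : ℕ) : StronglyMeasurable (hJ r J) := by
  unfold hJ
  apply StronglyMeasurable.integral_prod_right (f := fun (x : E2) (y : E2) => K r y * tf J (x - y))
  apply Measurable.stronglyMeasurable
  exact ((measurable_K hr).comp measurable_snd).mul
    ((tf_continuous J).measurable.comp (measurable_fst.sub measurable_snd))

lemma hJ_integrable {r : ℝ → ℝ} (hr : Adm r) (J : ℕ) :
    IntegrableOn (fun x : E2 => x 1 * hJ r J x) (ball 0 1) := by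
  obtain ⟨D, _, hD⟩ := hJ_bound J
  refine IntegrableOn.of_bound measure_ball_lt_top ?_ (D * (∫⁻ s, ‖r s‖ₑ).toReal) ?_
  · exact ((measurable_coord 1).mul (hJ_measurable hr.meas J).measurable).aestronglyMeasurable
  · filter_upwards [ae_restrict_mem measurableSet_ball] with x hx
    rw [mem_ball, dist_zero_right] at hx
    have h1 := hD r hr x hx
    have h2 := (coord_lt hx).2
    rw [norm_mul, Real.norm_eq_abs, Real.norm_eq_abs]
    calc |x 1| * |hJ r J x| ≤ 1 * |hJ r J x| := by gcongr
      _ ≤ _ := by rw [one_mul]; exact h1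

/-! ### The Banach space of angular parts -/

/-- Lebesgue measure on `[-π, π]`. -/
noncomputable abbrev μ : Measure ℝ := volume.restrict (Icc (-π) π)

/-- The space `L²(-π, π)`. -/
noncomputable abbrev X := Lp ℝ 2 μ

/-- An honest representative. -/
noncomputable def rep (ω : X) : ℝ → ℝ := (Icc (-π) π).indicator ω

lemma lintegral_rep (ω : X) (g : ℝ → ℝ≥0∞) (hg0 : g 0 = 0) :
    ∫⁻ s, g (rep ω s) = ∫⁻ s, g (ω s) ∂μ := by
  have h : ∀ s, g (rep ω s) = (Icc (-π) π).indicator (fun s => g (ω s)) s := by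
    intro s
    unfold rep
    by_cases hs : s ∈ Icc (-π) π
    · rw [indicator_of_mem hs, indicator_of_mem hs]
    · rw [indicator_of_notMem hs, indicator_of_notMem hs, hg0]
  simp_rw [h]
  rw [lintegral_indicator measurableSet_Icc]

lemma rep_adm (ω : X) : Adm (rep ω) where
  meas := (Lp.stronglyMeasurable ω).measurable.indicator measurableSet_Icc
  supp := by
    intro s hs
    unfold rep
    rw [indicator_of_notMem]
    intro h
    have := abs_le.mpr h
    linarith
  sq := by
    rw [lintegral_rep ω (fun t => ‖t ^ 2‖ₑ) (by simp)]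
    exact (Lp.memLp ω).integrable_sq.2

lemma rep_l1 (ω : X) : (∫⁻ s, ‖rep ω s‖ₑ).toReal ≤ Real.sqrt (2 * π) * ‖ω‖ := by
  rw [lintegral_rep ω (fun t => ‖t‖ₑ) (by simp), ← eLpNorm_one_eq_lintegral_enorm]
  have h1 := eLpNorm_le_eLpNorm_mul_rpow_measure_univ (μ := μ) (f := ω) (p := 1) (q := 2)
    (by norm_num) (Lp.aestronglyMeasurable ω)
  have hvol : μ univ = ENNReal.ofReal (2 * π) := by
    rw [Measure.restrict_apply_univ, Real.volume_Icc]
    congr 1; ring
  have h2 : eLpNorm ω 2 μ * μ univ ^ (1 / (1 : ℝ≥0∞).toReal - 1 / (2 : ℝ≥0∞).toReal) ≠ ∞ := by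
    apply (ENNReal.mul_lt_top (Lp.memLp ω).eLpNorm_lt_top _).ne
    rw [hvol]
    apply ENNReal.rpow_lt_top_of_nonneg _ ENNReal.ofReal_ne_top
    norm_num
  have h3 := ENNReal.toReal_mono h2 h1
  rw [ENNReal.toReal_mul, ← Lp.norm_def, mul_comm] at h3
  refine h3.trans (le_of_eq ?_)
  congr 1
  rw [hvol, ← ENNReal.toReal_rpow, ENNReal.toReal_ofReal (by positivity), Real.sqrt_eq_rpow]
  congr 1
  norm_num

lemma rep_congr {ω : X} {r : ℝ → ℝ} (h : ω =ᵐ[μ] r) :
    rep ω =ᵐ[volume] (Icc (-π) π).indicator r := by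
  rw [Filter.EventuallyEq, ae_restrict_iff' measurableSet_Icc] at h
  filter_upwards [h] with s hs
  unfold rep
  by_cases hs' : s ∈ Icc (-π) π
  · rw [indicator_of_mem hs', indicator_of_mem hs', hs hs']
  · rw [indicator_of_notMem hs', indicator_of_notMem hs']

lemma rep_add (ω ω' : X) : rep (ω + ω') =ᵐ[volume] fun s => rep ω s + rep ω' s := by
  refine (rep_congr (Lp.coeFn_add ω ω')).trans (Eventually.of_forall fun s => ?_)
  unfold rep
  rw [indicator_add']
  rfl

lemma rep_smul (c : ℝ) (ω : X) : rep (c • ω) =ᵐ[volume] fun s => c * rep ω s := by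
  refine (rep_congr (Lp.coeFn_smul c ω)).trans (Eventually.of_forall fun s => ?_)
  unfold rep
  by_cases hs : s ∈ Icc (-π) π
  · simp only [indicator_of_mem hs, Pi.smul_apply, smul_eq_mul]
  · simp only [indicator_of_notMem hs, mul_zero]

/-- The functionals to which the uniform boundedness principle is applied. -/
noncomputable def Λ (J : ℕ) : X →L[ℝ] ℝ :=
  LinearMap.mkContinuousOfExistsBound
    { toFun := fun ω => ∫ x in ball (0 : E2) 1, x 1 * hJ (rep ω) J x
      map_add' := by
        intro ω ω'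
        rw [← integral_add (hJ_integrable (rep_adm ω) J) (hJ_integrable (rep_adm ω') J)]
        apply setIntegral_congr_fun measurableSet_ball
        intro x hx
        rw [mem_ball, dist_zero_right] at hx
        simp only
        rw [hJ_congr (rep_add ω ω'), hJ_add (rep_adm ω) (rep_adm ω') J hx]
        ring
      map_smul' := by
        intro c ω
        rw [RingHom.id_apply, smul_eq_mul, ← integral_const_mul]
        apply setIntegral_congr_fun measurableSet_ball
        intro x _
        simp only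
        rw [hJ_congr (rep_smul c ω), hJ_smul]
        ring }
    (by
      obtain ⟨D, hD0, hD⟩ := hJ_bound J
      refine ⟨D * Real.sqrt (2 * π) * (volume (ball (0 : E2) 1)).toReal, fun ω => ?_⟩
      have h1 : ∀ x ∈ ball (0 : E2) 1, ‖x 1 * hJ (rep ω) J x‖ ≤ D * Real.sqrt (2 * π) * ‖ω‖ := by
        intro x hx
        rw [mem_ball, dist_zero_right] at hx
        have h1 := hD _ (rep_adm ω) x hx
        have h2 := (coord_lt hx).2
        rw [norm_mul, Real.norm_eq_abs, Real.norm_eq_abs]
        calc |x 1| * |hJ (rep ω) J x| ≤ 1 * |hJ (rep ω) J x| := by gcongr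
          _ ≤ D * (∫⁻ s, ‖rep ω s‖ₑ).toReal := by rw [one_mul]; exact h1
          _ ≤ D * (Real.sqrt (2 * π) * ‖ω‖) := by gcongr; exact rep_l1 ω
          _ = D * Real.sqrt (2 * π) * ‖ω‖ := by ring
      have h2 := norm_setIntegral_le_of_norm_le_const
        (measure_ball_lt_top : volume (ball (0 : E2) 1) < ∞) h1
      calc ‖∫ x in ball (0 : E2) 1, x 1 * hJ (rep ω) J x‖
          ≤ D * Real.sqrt (2 * π) * ‖ω‖ * volume.real (ball (0 : E2) 1) := h2
        _ = D * Real.sqrt (2 * π) * (volume (ball (0 : E2) 1)).toReal * ‖ω‖ := by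
          rw [Measure.real]; ring)

lemma Λ_apply (J : ℕ) (ω : X) : Λ J ω = ∫ x in ball (0 : E2) 1, x 1 * hJ (rep ω) J x := rfl

/-! ### The lacunary element -/

lemma memLp_J (J : ℕ) : MemLp (fun s => ∑ i ∈ Finset.range J, Real.cos (N i * s)) 2 μ := by
  apply MemLp.of_bound (by fun_prop) J
  refine Eventually.of_forall fun s => ?_
  calc ‖∑ i ∈ Finset.range J, Real.cos (N i * s)‖
      ≤ ∑ i ∈ Finset.range J, ‖Real.cos (N i * s)‖ := norm_sum_le _ _
    _ ≤ ∑ i ∈ Finset.range J, 1 := Finset.sum_le_sum fun i _ => Real.abs_cos_le_one _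
    _ = J := by simp

/-- The element of `L²` with lacunary spectrum. -/
noncomputable def ωJ (J : ℕ) : X := (memLp_J J).toLp _

lemma rep_ωJ (J : ℕ) : rep (ωJ J) =ᵐ[volume] rJ J := rep_congr (MemLp.coeFn_toLp (memLp_J J))

lemma integral_cos_int (k : ℤ) (hk : k ≠ 0) : ∫ s, Real.cos (k * s) ∂μ = 0 := by
  rw [integral_Icc_eq_integral_Ioc, ← intervalIntegral.integral_of_le (by linarith [Real.pi_pos])]
  rw [intervalIntegral.integral_comp_mul_left (fun x => Real.cos x) (by exact_mod_cast hk),
    integral_cos]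
  have h1 : Real.sin ((k : ℝ) * π) = 0 := Real.sin_int_mul_pi k
  rw [mul_neg, Real.sin_neg, h1]
  simp

lemma integral_cos_cos (i j : ℕ) :
    ∫ s, Real.cos (N i * s) * Real.cos (N j * s) ∂μ = if i = j then π else 0 := by
  have h1 : ∀ s, Real.cos (N i * s) * Real.cos (N j * s) =
      (Real.cos ((((4 : ℤ) ^ i - 4 ^ j : ℤ) : ℝ) * s) +
        Real.cos ((((4 : ℤ) ^ i + 4 ^ j : ℤ) : ℝ) * s)) / 2 := by
    intro s
    push_cast
    unfold N
    rw [sub_mul, add_mul, Real.cos_sub, Real.cos_add]
    ring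
  simp_rw [h1]
  have hint : ∀ k : ℤ, Integrable (fun s => Real.cos ((k : ℝ) * s)) μ := by
    intro k
    have : IntegrableOn (fun s => Real.cos ((k : ℝ) * s)) (Icc (-π) π) :=
      Continuous.integrableOn_Icc (by fun_prop)
    exact this
  rw [integral_div, integral_add (hint _) (hint _)]
  have h4 : ((4 : ℤ) ^ i + 4 ^ j) ≠ 0 := by positivity
  rw [integral_cos_int _ h4, add_zero]
  by_cases hij : i = j
  · subst hij
    simp only [sub_self, Int.cast_zero, zero_mul, Real.cos_zero, if_true]
    rw [integral_const, smul_eq_mul, mul_one, Measure.real, Measure.restrict_apply_univ,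
      Real.volume_Icc, ENNReal.toReal_ofReal (by linarith [Real.pi_pos])]
    ring
  · rw [if_neg hij, integral_cos_int]
    · simp
    · rw [sub_ne_zero]
      intro h
      exact hij (Int.pow_right_injective (by norm_num) h)

lemma norm_ωJ (J : ℕ) : ‖ωJ J‖ ^ 2 = π * J := by
  have hint : ∀ i j : ℕ, Integrable (fun s => Real.cos (N i * s) * Real.cos (N j * s)) μ := by
    intro i j
    have : IntegrableOn (fun s => Real.cos (N i * s) * Real.cos (N j * s)) (Icc (-π) π) :=
      Continuous.integrableOn_Icc (by fun_prop)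
    exact this
  rw [← real_inner_self_eq_norm_sq, L2.inner_def]
  have h1 : ∫ s, inner ℝ (ωJ J s) (ωJ J s) ∂μ =
      ∫ s, ∑ i ∈ Finset.range J, ∑ j ∈ Finset.range J,
        Real.cos (N i * s) * Real.cos (N j * s) ∂μ := by
    apply integral_congr_ae
    filter_upwards [MemLp.coeFn_toLp (memLp_J J)] with s hs
    have : ωJ J s = ∑ i ∈ Finset.range J, Real.cos (N i * s) := hs
    rw [this, real_inner_self_eq_norm_sq, Real.norm_eq_abs, sq_abs, _root_.sq, Finset.sum_mul_sum]
  rw [h1, integral_finsetSum _ fun i _ => integrable_finsetSum _ fun j _ => hint i j]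
  have h2 : ∀ i ∈ Finset.range J, ∫ s, ∑ j ∈ Finset.range J,
      Real.cos (N i * s) * Real.cos (N j * s) ∂μ = π := by
    intro i hi
    rw [integral_finsetSum _ fun j _ => hint i j]
    simp_rw [integral_cos_cos]
    rw [Finset.sum_ite_eq, if_pos hi]
  rw [Finset.sum_congr rfl h2, Finset.sum_const, Finset.card_range, nsmul_eq_mul, mul_comm]

lemma Λ_ωJ : ∃ c C : ℝ, 0 < c ∧ ∀ J : ℕ, c * J - C ≤ |Λ J (ωJ J)| := by
  obtain ⟨C, hC⟩ := lower
  set B : Set E2 := ball 0 1 with hB
  have hvol : volume B < ∞ := measure_ball_lt_top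
  -- the second moment is positive
  have hsq : IntegrableOn (fun x : E2 => (x 1) ^ 2) B := by
    refine IntegrableOn.of_bound hvol ?_ 1 ?_
    · exact ((measurable_coord 1).pow_const 2).aestronglyMeasurable
    · filter_upwards [ae_restrict_mem measurableSet_ball] with x hx
      rw [mem_ball, dist_zero_right] at hx
      rw [norm_pow]
      exact pow_le_one₀ (norm_nonneg _) (coord_lt hx).2.le
  have hm2 : 0 < ∫ x in B, (x 1) ^ 2 := by
    set p : E2 := pt 0 (1 / 2) with hp
    have hnp : ‖p‖ = 1 / 2 := by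
      have : ‖p‖ ^ 2 = (1 / 2) ^ 2 := by rw [hp, norm_pt_sq]; norm_num
      exact (sq_eq_sq₀ (norm_nonneg _) (by norm_num)).mp this
    have hsub : ball p (1 / 4) ⊆ B := by
      intro x hx
      rw [mem_ball, dist_eq_norm] at hx
      rw [hB, mem_ball, dist_zero_right]
      have := norm_le_norm_add_norm_sub p x
      rw [norm_sub_rev] at this
      linarith
    have hlow : ∀ x ∈ ball p (1 / 4), (1 / 16 : ℝ) ≤ (x 1) ^ 2 := by
      intro x hx
      rw [mem_ball, dist_eq_norm] at hx
      have h2 : |(x - p) 1| ≤ ‖x - p‖ := by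
        have := PiLp.norm_apply_le (x - p) 1
        simpa using this
      have h3 : (x - p) 1 = x 1 - 1 / 2 := rfl
      rw [h3] at h2
      have h4 := abs_lt.mp (h2.trans_lt hx)
      nlinarith
    have hpos : 0 < volume (ball p (1 / 4)) := measure_ball_pos _ _ (by norm_num)
    calc (0 : ℝ) < (1 / 16) * volume.real (ball p (1 / 4)) := by
          apply mul_pos (by norm_num)
          exact ENNReal.toReal_pos hpos.ne' measure_ball_lt_top.ne
      _ = ∫ x in ball p (1 / 4), (1 / 16 : ℝ) := by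
          rw [setIntegral_const, smul_eq_mul, mul_comm]
      _ ≤ ∫ x in ball p (1 / 4), (x 1) ^ 2 := by
          apply setIntegral_mono_on _ (hsq.mono_set hsub) measurableSet_ball hlow
          exact integrableOn_const (by exact measure_ball_lt_top.ne)
      _ ≤ ∫ x in B, (x 1) ^ 2 := by
          apply setIntegral_mono_set hsq
          · exact Eventually.of_forall fun x => sq_nonneg _
          · exact Eventually.of_forall hsub
  refine ⟨(∫ x in B, (x 1) ^ 2) / 340, C * volume.real B, by positivity, fun J => ?_⟩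
  have h1 : Λ J (ωJ J) = ∫ x in B, x 1 * hJ (rJ J) J x := by
    rw [Λ_apply]
    apply setIntegral_congr_fun measurableSet_ball
    intro x _
    simp only
    rw [hJ_congr (rep_ωJ J)]
  have h2 : (∫ x in B, (x 1) ^ 2) / 340 * J - C * volume.real B ≤ -Λ J (ωJ J) := by
    rw [h1, ← integral_neg]
    have h3 : (∫ x in B, (x 1) ^ 2) / 340 * J - C * volume.real B =
        ∫ x in B, ((x 1) ^ 2 * J / 340 - C) := by
      rw [integral_sub, setIntegral_const, integral_div, integral_mul_const, smul_eq_mul]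
      · ring
      · exact (hsq.mul_const _).div_const _
      · exact integrableOn_const hvol.ne
    rw [h3]
    apply setIntegral_mono_on
    · exact ((hsq.mul_const _).div_const _).sub (integrableOn_const hvol.ne)
    · exact (hJ_integrable (rJ_adm J) J).neg
    · exact measurableSet_ball
    · intro x hx
      rw [hB, mem_ball, dist_zero_right] at hx
      exact hC J x hx
  exact h2.trans (neg_le_abs _)

end Pool.Agent.H58.Rough
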