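import Pool.Agent.H58.Rough.Coord

open MeasureTheory Filter Topology Metric Set
open scoped ENNReal Real

namespace Pool.Agent.H58.Rough

/-- The homogeneous kernel with angular part `r (y₁ / y₀)`, odd in `y`. -/
noncomputable def K (r : ℝ → ℝ) (y : E2) : ℝ := (y 0 * |y 0|)⁻¹ * r (y 1 / y 0)

/-- Admissible angular parts. -/
structure Adm (r : ℝ → ℝ) : Prop where
  meas : Measurable r
  supp : ∀ s, π < |s| → r s = 0
  sq : ∫⁻ s, ‖(r s) ^ 2‖ₑ < ∞

lemma measurable_coord (i : Fin 2) : Measurable fun y : E2 => y i := by fun_prop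

lemma measurable_K {r : ℝ → ℝ} (hr : Measurable r) : Measurable (K r) := by
  unfold K
  have h0 := measurable_coord 0
  have h1 := measurable_coord 1
  exact ((h0.mul h0.abs).inv).mul (hr.comp (h1.div h0))

lemma K_neg (r : ℝ → ℝ) (y : E2) : K r (-y) = -K r y := by
  unfold K
  simp only [PiLp.neg_apply, abs_neg, neg_div_neg_eq, neg_mul, inv_neg]

lemma K_smul (r : ℝ → ℝ) (t : ℝ) (ht : 0 < t) (y : E2) :
    K r (t • y) = t ^ (-((2 : ℕ) : ℤ)) * K r y := by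
  unfold K
  simp only [PiLp.smul_apply, smul_eq_mul, abs_mul, abs_of_pos ht]
  rw [mul_div_mul_left _ _ ht.ne']
  have h : t * y 0 * (t * |y 0|) = t ^ 2 * (y 0 * |y 0|) := by ring
  rw [h, mul_inv, mul_assoc, zpow_neg]
  norm_cast

lemma K_pt (r : ℝ → ℝ) {a : ℝ} (ha : a ≠ 0) (s : ℝ) : K r (pt a (a * s)) = (a * |a|)⁻¹ * r s := by
  unfold K
  rw [pt_zero, pt_one, mul_div_cancel_left₀ _ ha]

lemma norm_pt_sq (a b : ℝ) : ‖pt a b‖ ^ 2 = a ^ 2 + b ^ 2 := by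
  rw [EuclideanSpace.norm_sq_eq, Fin.sum_univ_two]
  simp

lemma abs_le_norm_pt (a b : ℝ) : |a| ≤ ‖pt a b‖ := by
  apply abs_le_of_sq_le_sq' _ (norm_nonneg _) |> abs_le.mpr
  rw [norm_pt_sq]; nlinarith [sq_nonneg b]

lemma norm_pt_le (a s : ℝ) (hs : |s| ≤ π) : ‖pt a (a * s)‖ ≤ 4 * |a| := by
  apply le_of_sq_le_sq _ (by positivity)
  rw [norm_pt_sq, mul_pow, mul_pow, sq_abs]
  have h1 : s ^ 2 ≤ 3.15 ^ 2 := by
    rw [← sq_abs s]
    have := Real.pi_lt_d2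
    have h2 : |s| ≤ 3.15 := by linarith
    exact pow_le_pow_left₀ (abs_nonneg s) h2 2
  nlinarith [sq_nonneg a]

lemma lintegral_bound (G : E2 → ℝ≥0∞) (hG : Measurable G) (ρ : ℝ) (b : ℝ → ℝ≥0∞)
    (h : ∀ a s, a ≠ 0 → ENNReal.ofReal |a| * G (pt a (a * s)) ≤
      (Icc (-ρ) ρ).indicator (fun _ => b s) a) :
    ∫⁻ y, G y ≤ ENNReal.ofReal (2 * ρ) * ∫⁻ s, b s := by
  rw [lintegral_E2 G hG]
  calc ∫⁻ a : ℝ, ∫⁻ s : ℝ, ENNReal.ofReal |a| * G (pt a (a * s))
      ≤ ∫⁻ a : ℝ, (Icc (-ρ) ρ).indicator (fun _ => ∫⁻ s, b s) a := by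
        apply lintegral_mono_ae
        filter_upwards [ae_ne_zero] with a ha
        calc ∫⁻ s : ℝ, ENNReal.ofReal |a| * G (pt a (a * s))
            ≤ ∫⁻ s : ℝ, (Icc (-ρ) ρ).indicator (fun _ => b s) a :=
              lintegral_mono fun s => h a s ha
          _ = (Icc (-ρ) ρ).indicator (fun _ => ∫⁻ s, b s) a := by
              by_cases ha' : a ∈ Icc (-ρ) ρ
              · simp [indicator_of_mem ha']
              · simp [indicator_of_notMem ha']
    _ = ENNReal.ofReal (2 * ρ) * ∫⁻ s, b s := by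
        rw [lintegral_indicator measurableSet_Icc, lintegral_const, Measure.restrict_apply_univ,
          Real.volume_Icc, mul_comm]
        congr 2; ring

section Adm

variable {r : ℝ → ℝ} (hr : Adm r)
include hr

lemma Adm.l1 : ∫⁻ s, ‖r s‖ₑ < ∞ := by
  have h : ∀ s, ‖r s‖ₑ ≤ (Icc (-π) π).indicator (fun _ => (1 : ℝ≥0∞)) s + ‖(r s) ^ 2‖ₑ := by
    intro s
    by_cases hs : s ∈ Icc (-π) π
    · rw [indicator_of_mem hs]
      have h1 : ‖r s‖ ≤ 1 + ‖(r s) ^ 2‖ := by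
        rw [norm_pow]; nlinarith [norm_nonneg (r s), sq_nonneg (‖r s‖ - 1)]
      rw [← ofReal_norm, ← ofReal_norm]
      calc ENNReal.ofReal ‖r s‖ ≤ ENNReal.ofReal (1 + ‖(r s) ^ 2‖) := ENNReal.ofReal_le_ofReal h1
        _ = 1 + ENNReal.ofReal ‖(r s) ^ 2‖ := by
          rw [ENNReal.ofReal_add zero_le_one (norm_nonneg _), ENNReal.ofReal_one]
    · have : r s = 0 := hr.supp s (by
        by_contra hcon
        push Not at hcon
        exact hs (abs_le.mp hcon))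
      simp [this]
  calc ∫⁻ s, ‖r s‖ₑ ≤ ∫⁻ s, ((Icc (-π) π).indicator (fun _ => (1 : ℝ≥0∞)) s + ‖(r s) ^ 2‖ₑ) :=
        lintegral_mono h
    _ = (∫⁻ s, (Icc (-π) π).indicator (fun _ => (1 : ℝ≥0∞)) s) + ∫⁻ s, ‖(r s) ^ 2‖ₑ := by
        rw [lintegral_add_left (measurable_const.indicator measurableSet_Icc)]
    _ < ∞ := by
        rw [lintegral_indicator (measurableSet_Icc (a := -π) (b := π)), lintegral_const, one_mul,
          Measure.restrict_apply_univ, Real.volume_Icc]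
        exact ENNReal.add_lt_top.mpr ⟨ENNReal.ofReal_lt_top, hr.sq⟩

/-- Pointwise bound used in all the estimates. -/
lemma Adm.supp' {s : ℝ} (hs : r s ≠ 0) : |s| ≤ π := by
  by_contra hcon
  push Not at hcon
  exact hs (hr.supp s hcon)

lemma Adm.lintegral_annulus {ε ρ : ℝ} (hε : 0 < ε) :
    ∫⁻ y in {y : E2 | ε ≤ ‖y‖ ∧ ‖y‖ ≤ ρ}, ‖K r y‖ₑ ≤
      ENNReal.ofReal (2 * ρ) * ∫⁻ s, ENNReal.ofReal (4 / ε) * ‖r s‖ₑ := by
  have hms : MeasurableSet {y : E2 | ε ≤ ‖y‖ ∧ ‖y‖ ≤ ρ} :=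
    (measurableSet_le measurable_const measurable_norm).inter
      (measurableSet_le measurable_norm measurable_const)
  rw [← lintegral_indicator hms]
  refine lintegral_bound _ ?_ ρ _ ?_
  · exact (measurable_K hr.meas).enorm.indicator hms
  · intro a s ha
    by_cases hy : pt a (a * s) ∈ {y : E2 | ε ≤ ‖y‖ ∧ ‖y‖ ≤ ρ}
    · rw [indicator_of_mem hy, K_pt r ha]
      have haρ : a ∈ Icc (-ρ) ρ := abs_le.mp ((abs_le_norm_pt _ _).trans hy.2)
      rw [indicator_of_mem haρ]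
      by_cases hs : r s = 0
      · simp [hs]
      · have hs' := hr.supp' hs
        have h1 : ε ≤ 4 * |a| := hy.1.trans (norm_pt_le a s hs')
        have ha0 : 0 < |a| := abs_pos.mpr ha
        rw [enorm_mul, ← mul_assoc]
        gcongr
        rw [← ofReal_norm, ← ENNReal.ofReal_mul (abs_nonneg _)]
        apply ENNReal.ofReal_le_ofReal
        rw [norm_inv, norm_mul, Real.norm_eq_abs, Real.norm_eq_abs, abs_abs]
        rw [mul_inv, ← mul_assoc, mul_inv_cancel₀ ha0.ne', one_mul, inv_eq_one_div,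
          div_le_div_iff₀ ha0 hε]
        linarith
    · rw [indicator_of_notMem hy]
      simp

lemma Adm.lintegral_sq :
    ∫⁻ y in {y : E2 | 1 ≤ ‖y‖ ∧ ‖y‖ ≤ 2}, ‖(K r y) ^ 2‖ₑ ≤
      ENNReal.ofReal (2 * 2) * ∫⁻ s, ENNReal.ofReal (4 ^ 3) * ‖(r s) ^ 2‖ₑ := by
  have hms : MeasurableSet {y : E2 | 1 ≤ ‖y‖ ∧ ‖y‖ ≤ 2} :=
    (measurableSet_le measurable_const measurable_norm).inter
      (measurableSet_le measurable_norm measurable_const)
  rw [← lintegral_indicator hms]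
  refine lintegral_bound _ ?_ 2 _ ?_
  · exact ((measurable_K hr.meas).pow_const 2).enorm.indicator hms
  · intro a s ha
    by_cases hy : pt a (a * s) ∈ {y : E2 | 1 ≤ ‖y‖ ∧ ‖y‖ ≤ 2}
    · rw [indicator_of_mem hy, K_pt r ha]
      have haρ : a ∈ Icc (-(2:ℝ)) 2 := abs_le.mp ((abs_le_norm_pt _ _).trans hy.2)
      rw [indicator_of_mem haρ]
      by_cases hs : r s = 0
      · simp [hs]
      · have hs' := hr.supp' hs
        have h1 : 1 ≤ 4 * |a| := hy.1.trans (norm_pt_le a s hs')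
        have ha0 : 0 < |a| := abs_pos.mpr ha
        rw [mul_pow, enorm_mul, ← mul_assoc]
        gcongr
        rw [← ofReal_norm, ← ENNReal.ofReal_mul (abs_nonneg _)]
        apply ENNReal.ofReal_le_ofReal
        rw [norm_pow, norm_inv, norm_mul, Real.norm_eq_abs, Real.norm_eq_abs, abs_abs]
        have h2 : |a| * ((|a| * |a|)⁻¹) ^ 2 = (|a|⁻¹) ^ 3 := by
          field_simp
        rw [h2]
        apply pow_le_pow_left₀ (by positivity)
        rw [inv_eq_one_div, div_le_iff₀ ha0]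
        linarith
    · rw [indicator_of_notMem hy]
      simp

lemma Adm.lintegral_near (ρ : ℝ) :
    ∫⁻ y in {y : E2 | ‖y‖ ≤ ρ}, ‖K r y‖ₑ * ‖y‖ₑ ≤
      ENNReal.ofReal (2 * ρ) * ∫⁻ s, 4 * ‖r s‖ₑ := by
  have hms : MeasurableSet {y : E2 | ‖y‖ ≤ ρ} :=
    (measurableSet_le measurable_norm measurable_const)
  rw [← lintegral_indicator hms]
  refine lintegral_bound _ ?_ ρ _ ?_
  · exact ((measurable_K hr.meas).enorm.mul measurable_enorm).indicator hms
  · intro a s ha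
    by_cases hy : pt a (a * s) ∈ {y : E2 | ‖y‖ ≤ ρ}
    · rw [indicator_of_mem hy, K_pt r ha]
      have haρ : a ∈ Icc (-ρ) ρ := abs_le.mp ((abs_le_norm_pt _ _).trans hy)
      rw [indicator_of_mem haρ]
      by_cases hs : r s = 0
      · simp [hs]
      · have hs' := hr.supp' hs
        have h1 := norm_pt_le a s hs'
        have ha0 : 0 < |a| := abs_pos.mpr ha
        rw [enorm_mul]
        calc ENNReal.ofReal |a| * (‖(a * |a|)⁻¹‖ₑ * ‖r s‖ₑ * ‖pt a (a * s)‖ₑ)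
            = (ENNReal.ofReal |a| * ‖(a * |a|)⁻¹‖ₑ * ‖pt a (a * s)‖ₑ) * ‖r s‖ₑ := by ring
          _ ≤ 4 * ‖r s‖ₑ := by
            gcongr
            rw [← ofReal_norm, ← ofReal_norm,
              ← ENNReal.ofReal_mul (abs_nonneg _), ← ENNReal.ofReal_mul (by positivity)]
            have h4 : (4 : ℝ≥0∞) = ENNReal.ofReal 4 := by norm_num
            rw [h4]
            apply ENNReal.ofReal_le_ofReal
            rw [norm_inv, norm_mul, Real.norm_eq_abs, Real.norm_eq_abs, abs_abs]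
            rw [mul_inv, ← mul_assoc, mul_inv_cancel₀ ha0.ne', one_mul, inv_mul_le_iff₀ ha0]
            linarith
    · rw [indicator_of_notMem hy]
      simp

lemma Adm.annulus_lt_top {ε : ℝ} (ρ : ℝ) (hε : 0 < ε) :
    ∫⁻ y in {y : E2 | ε ≤ ‖y‖ ∧ ‖y‖ ≤ ρ}, ‖K r y‖ₑ < ∞ := by
  refine (hr.lintegral_annulus hε).trans_lt ?_
  rw [lintegral_const_mul _ hr.meas.enorm]
  exact ENNReal.mul_lt_top ENNReal.ofReal_lt_top (ENNReal.mul_lt_top ENNReal.ofReal_lt_top hr.l1)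

lemma Adm.sq_lt_top : ∫⁻ y in {y : E2 | 1 ≤ ‖y‖ ∧ ‖y‖ ≤ 2}, ‖(K r y) ^ 2‖ₑ < ∞ := by
  refine hr.lintegral_sq.trans_lt ?_
  rw [lintegral_const_mul _ (hr.meas.pow_const 2).enorm]
  exact ENNReal.mul_lt_top ENNReal.ofReal_lt_top (ENNReal.mul_lt_top ENNReal.ofReal_lt_top hr.sq)

lemma Adm.near_lt_top (ρ : ℝ) : ∫⁻ y in {y : E2 | ‖y‖ ≤ ρ}, ‖K r y‖ₑ * ‖y‖ₑ < ∞ := by
  refine (hr.lintegral_near ρ).trans_lt ?_
  rw [lintegral_const_mul _ hr.meas.enorm]
  exact ENNReal.mul_lt_top ENNReal.ofReal_lt_top (ENNReal.mul_lt_top (by norm_num) hr.l1)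

lemma Adm.integrableOn_annulus {ε : ℝ} (ρ : ℝ) (hε : 0 < ε) :
    IntegrableOn (K r) {y : E2 | ε ≤ ‖y‖ ∧ ‖y‖ ≤ ρ} :=
  ⟨(measurable_K hr.meas).aestronglyMeasurable, hr.annulus_lt_top ρ hε⟩

lemma Adm.integrableOn_log :
    IntegrableOn (fun x => |K r x| * max 0 (Real.log |K r x|))
        {x : E2 | 1 ≤ ‖x‖ ∧ ‖x‖ ≤ 2} volume := by
  have h2 : IntegrableOn (fun x => (K r x) ^ 2) {x : E2 | 1 ≤ ‖x‖ ∧ ‖x‖ ≤ 2} volume :=
    ⟨((measurable_K hr.meas).pow_const 2).aestronglyMeasurable, hr.sq_lt_top⟩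
  refine h2.mono' ?_ ?_
  · have hK := (measurable_K hr.meas).abs
    exact (hK.mul (measurable_const.max (Real.measurable_log.comp hK))).aestronglyMeasurable
  · refine Eventually.of_forall fun x => ?_
    rw [norm_mul, Real.norm_eq_abs, Real.norm_eq_abs, abs_abs,
      abs_of_nonneg (le_max_left (0 : ℝ) (Real.log |K r x|)), ← sq_abs (K r x), _root_.sq]
    apply mul_le_mul_of_nonneg_left _ (abs_nonneg _)
    apply max_le (abs_nonneg _)
    rcases eq_or_lt_of_le (abs_nonneg (K r x)) with h | h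
    · rw [← h]; simp
    · linarith [Real.log_le_sub_one_of_pos h]

omit hr in
lemma integral_K_annulus (r : ℝ → ℝ) :
    (∫ x in {x : E2 | 1 ≤ ‖x‖ ∧ ‖x‖ ≤ 2}, K r x) = 0 := by
  have hms : MeasurableSet {y : E2 | 1 ≤ ‖y‖ ∧ ‖y‖ ≤ 2} :=
    (measurableSet_le measurable_const measurable_norm).inter
      (measurableSet_le measurable_norm measurable_const)
  rw [← integral_indicator hms]
  set G : E2 → ℝ := {x : E2 | 1 ≤ ‖x‖ ∧ ‖x‖ ≤ 2}.indicator (K r) with hG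
  have h1 : ∀ x, G (-x) = -G x := by
    intro x
    by_cases hx : x ∈ {x : E2 | 1 ≤ ‖x‖ ∧ ‖x‖ ≤ 2}
    · have hx' : -x ∈ {x : E2 | 1 ≤ ‖x‖ ∧ ‖x‖ ≤ 2} := by simpa using hx
      rw [hG, indicator_of_mem hx, indicator_of_mem hx', K_neg]
    · have hx' : -x ∉ {x : E2 | 1 ≤ ‖x‖ ∧ ‖x‖ ≤ 2} := by simpa using hx
      rw [hG, indicator_of_notMem hx, indicator_of_notMem hx', neg_zero]
  have h2 : ∫ x, G x = -∫ x, G x := by
    conv_lhs => rw [← integral_neg_eq_self]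
    rw [← integral_neg]
    exact integral_congr_ae (Eventually.of_forall h1)
  linarith

end Adm

end Pool.Agent.H58.Rough
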