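import Pool.Agent.H58.Rough.Test

open MeasureTheory Filter Topology Metric Set
open scoped ENNReal Real NNReal

namespace Pool.Agent.H58.Rough

/-- The lacunary trigonometric polynomial, cut off to `[-π, π]`. -/
noncomputable def rJ (J : ℕ) : ℝ → ℝ :=
  (Icc (-π) π).indicator fun s => ∑ i ∈ Finset.range J, Real.cos (N i * s)

/-- The angular integral as a function of the radial variable. -/
noncomputable def I (x0 x1 : ℝ) (i j : ℕ) (a : ℝ) : ℝ :=
  Real.sin (N i * (x1 / (a - x0))) *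
    ((Ψ (N i * (a / (a - x0)) - N j) - Ψ (N i * (a / (a - x0)) + N j)) / 2)

/-- Radial weight. -/
noncomputable def w (x0 : ℝ) (j : ℕ) (a : ℝ) : ℝ := η (a / R j) * (a / (a - x0) ^ 2)

section Weights

variable {x0 : ℝ} (hx0 : |x0| < 1)

lemma w_zero {j : ℕ} {a : ℝ} (h : a ≤ R j ∨ 2 * R j ≤ a) : w x0 j a = 0 := by
  unfold w
  have hR := R_pos j
  rw [η_zero, zero_mul]
  rcases h with h | h
  · left; rw [div_le_one hR]; exact h
  · right; rw [le_div_iff₀ hR]; exact h

include hx0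

lemma w_nonneg (j : ℕ) (a : ℝ) : 0 ≤ w x0 j a := by
  by_cases h : a ≤ R j
  · rw [w_zero (Or.inl h)]
  · push Not at h
    have := R_pos j
    unfold w
    have h2 : 0 ≤ a := by linarith
    have := η.nonneg (x := a / R j)
    positivity

lemma w_le (j : ℕ) (a : ℝ) : w x0 j a ≤ (Icc (R j) (2 * R j)).indicator (fun _ => 2 / R j) a := by
  by_cases h : a ∈ Icc (R j) (2 * R j)
  · rw [indicator_of_mem h]
    have h8 := eight_le_R j
    have hR := R_pos j
    have hx := abs_lt.mp hx0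
    have ha : 8 ≤ a := h8.trans h.1
    have h1 : a / (a - x0) ^ 2 ≤ 2 / R j := by
      rw [div_le_div_iff₀ (by nlinarith) hR]
      have h2 : (a - 1) ^ 2 ≤ (a - x0) ^ 2 := by
        apply pow_le_pow_left₀ (by linarith); linarith
      nlinarith [h.1]
    calc w x0 j a ≤ 1 * (2 / R j) := by
          unfold w
          apply mul_le_mul η.le_one h1 _ zero_le_one
          have : 0 ≤ a := by linarith
          positivity
      _ = 2 / R j := one_mul _
  · rw [indicator_of_notMem h, w_zero]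
    rw [mem_Icc, not_and_or, not_le, not_le] at h
    rcases h with h | h
    · left; exact h.le
    · right; exact h.le

lemma le_w (j : ℕ) (a : ℝ) :
    (Icc (5 / 4 * R j) (7 / 4 * R j)).indicator (fun _ => (2 / 5) / R j) a ≤ w x0 j a := by
  by_cases h : a ∈ Icc (5 / 4 * R j) (7 / 4 * R j)
  · rw [indicator_of_mem h]
    have h8 := eight_le_R j
    have hR := R_pos j
    have hx := abs_lt.mp hx0
    have ha : 10 ≤ a := by linarith [h.1]
    unfold w
    rw [η_one (by rw [le_div_iff₀ hR]; exact h.1) (by rw [div_le_iff₀ hR]; exact h.2), one_mul,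
      div_le_div_iff₀ hR (by nlinarith)]
    have h2 : (a - x0) ^ 2 ≤ (a + 1) ^ 2 := by
      apply pow_le_pow_left₀ (by linarith); linarith
    nlinarith [h.2]
  · rw [indicator_of_notMem h]
    exact w_nonneg hx0 j a

lemma w_integrable (j : ℕ) : Integrable (w x0 j) := by
  have h1 : Integrable ((Icc (R j) (2 * R j)).indicator (fun _ => 2 / R j)) := by
    rw [integrable_indicator_iff measurableSet_Icc]
    exact integrableOn_const (by simp)
  refine h1.mono' ?_ ?_
  · unfold w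
    apply Measurable.aestronglyMeasurable
    apply Measurable.mul
    · exact η.continuous.measurable.comp (measurable_id.div_const _)
    · fun_prop
  · refine Eventually.of_forall fun a => ?_
    rw [Real.norm_of_nonneg (w_nonneg hx0 j a)]
    exact w_le hx0 j a

lemma integral_w_le (j : ℕ) : ∫ a, w x0 j a ≤ 2 := by
  have hR := R_pos j
  calc ∫ a, w x0 j a ≤ ∫ a, (Icc (R j) (2 * R j)).indicator (fun _ => 2 / R j) a := by
        apply integral_mono (w_integrable hx0 j) _ (w_le hx0 j)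
        rw [integrable_indicator_iff measurableSet_Icc]
        exact integrableOn_const (by simp)
    _ = 2 := by
        rw [integral_indicator measurableSet_Icc]
        simp only [integral_const, MeasurableSet.univ, measureReal_restrict_apply, univ_inter,
          Real.volume_real_Icc, smul_eq_mul]
        rw [max_eq_left (by linarith)]
        field_simp
        ring

lemma le_integral_w (j : ℕ) : 1 / 5 ≤ ∫ a, w x0 j a := by
  have hR := R_pos j
  calc 1 / 5 = ∫ a, (Icc (5 / 4 * R j) (7 / 4 * R j)).indicator (fun _ => (2 / 5) / R j) a := by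
        rw [integral_indicator measurableSet_Icc]
        simp only [integral_const, MeasurableSet.univ, measureReal_restrict_apply, univ_inter,
          Real.volume_real_Icc, smul_eq_mul]
        rw [max_eq_left (by linarith)]
        field_simp
        ring
    _ ≤ ∫ a, w x0 j a := by
        apply integral_mono _ (w_integrable hx0 j) (le_w hx0 j)
        rw [integrable_indicator_iff measurableSet_Icc]
        exact integrableOn_const (by simp)

end Weights

/-! ### Lower bound for the angular integrals -/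

section AngularBound

variable {C : ℝ} (hC0 : 0 ≤ C) (hC : ∀ ξ : ℝ, |ξ| * |Ψ ξ| ≤ C)

lemma max_ge (i j : ℕ) : (2 : ℝ) ^ i * 2 ^ j ≤ max (N i) (N j) := by
  have h : ∀ i j : ℕ, i ≤ j → (2 : ℝ) ^ i * 2 ^ j ≤ N j := by
    intro i j hij
    have h1 : (2 : ℝ) ^ i ≤ 2 ^ j := pow_le_pow_right₀ (by norm_num) hij
    have h2 : N j = 2 ^ j * 2 ^ j := by unfold N; rw [← mul_pow]; norm_num
    rw [h2]
    gcongr
  rcases le_total i j with hij | hij
  · exact (h i j hij).trans (le_max_right _ _)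
  · rw [mul_comm]; exact (h j i hij).trans (le_max_left _ _)

include hC0 hC in
lemma Ψ_small {i j : ℕ} {ξ : ℝ} (hξ : max (N i) (N j) / 2 ≤ |ξ|) :
    |Ψ ξ| ≤ 2 * C * ((1 / 2) ^ i * (1 / 2) ^ j) := by
  have h1 := max_ge i j
  have h2 : 0 < (2 : ℝ) ^ i * 2 ^ j := by positivity
  have h3 : 0 < |ξ| := by linarith
  have h4 : |Ψ ξ| ≤ C / |ξ| := by
    rw [le_div_iff₀ h3, mul_comm]; exact hC ξ
  refine h4.trans ?_
  rw [div_le_iff₀ h3]
  have h5 : (1 : ℝ) ≤ ((1 / 2) ^ i * (1 / 2) ^ j) * (2 * |ξ|) := by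
    have h6 : ((1 / 2 : ℝ) ^ i * (1 / 2) ^ j) * (2 ^ i * 2 ^ j) = 1 := by
      rw [one_div, inv_pow, inv_pow]
      field_simp
    calc (1 : ℝ) = ((1 / 2 : ℝ) ^ i * (1 / 2) ^ j) * (2 ^ i * 2 ^ j) := h6.symm
      _ ≤ ((1 / 2) ^ i * (1 / 2) ^ j) * (2 * |ξ|) :=
          mul_le_mul_of_nonneg_left (by linarith) (by positivity)
  nlinarith

variable {x0 x1 : ℝ} (hx0 : |x0| < 1) (hx1 : |x1| < 1)

include hC0 hC hx0 hx1 in
lemma I_err {i j : ℕ} {a : ℝ} (ha : 8 ≤ a) (hij : i ≠ j) :
    |x1 * I x0 x1 i j a| ≤ 2 * C * ((1 / 2) ^ i * (1 / 2) ^ j) := by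
  have hx := abs_lt.mp hx0
  have hpos : 0 < a - x0 := by linarith
  have hp1 : 8 / 9 ≤ a / (a - x0) := by rw [div_le_div_iff₀ (by norm_num) hpos]; linarith
  have hp2 : a / (a - x0) ≤ 8 / 7 := by rw [div_le_div_iff₀ hpos (by norm_num)]; linarith
  set p := a / (a - x0) with hp
  have hNi := N_pos i
  have hNj := N_pos j
  have hsep : ∀ k l : ℕ, k < l → 4 * N k ≤ N l := by
    intro k l hkl
    unfold N
    calc 4 * (4 : ℝ) ^ k = 4 ^ (k + 1) := by ring
      _ ≤ 4 ^ l := pow_le_pow_right₀ (by norm_num) hkl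
  have hd1 : max (N i) (N j) / 2 ≤ |N i * p - N j| := by
    rcases lt_or_gt_of_ne hij with h | h
    · have h1 := hsep i j h
      have h2 : N i * p ≤ N i * (8 / 7) := by gcongr
      rw [max_eq_right (by linarith), abs_of_nonpos (by linarith)]
      linarith
    · have h1 := hsep j i h
      have h2 : N i * (8 / 9) ≤ N i * p := by gcongr
      rw [max_eq_left (by linarith), abs_of_nonneg (by linarith)]
      linarith
  have hd2 : max (N i) (N j) / 2 ≤ |N i * p + N j| := by
    have h2 : N i * (8 / 9) ≤ N i * p := by gcongr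
    rw [abs_of_pos (by nlinarith)]
    have : max (N i) (N j) ≤ N i + N j := max_le (by linarith) (by linarith)
    linarith
  have b1 := Ψ_small hC0 hC hd1
  have b2 := Ψ_small hC0 hC hd2
  unfold I
  rw [← hp, abs_mul, abs_mul]
  have h3 : |(Ψ (N i * p - N j) - Ψ (N i * p + N j)) / 2| ≤ 2 * C * ((1 / 2) ^ i * (1 / 2) ^ j) := by
    rw [abs_div, abs_of_pos (by norm_num : (0:ℝ) < 2), div_le_iff₀ (by norm_num)]
    have := abs_sub (Ψ (N i * p - N j)) (Ψ (N i * p + N j))
    linarith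
  have h4 : |Real.sin (N i * (x1 / (a - x0)))| ≤ 1 := Real.abs_sin_le_one _
  have h5 : 0 ≤ |(Ψ (N i * p - N j) - Ψ (N i * p + N j)) / 2| := abs_nonneg _
  calc |x1| * (|Real.sin (N i * (x1 / (a - x0)))| * |(Ψ (N i * p - N j) - Ψ (N i * p + N j)) / 2|)
      ≤ 1 * (1 * |(Ψ (N i * p - N j) - Ψ (N i * p + N j)) / 2|) := by
        gcongr
    _ ≤ 2 * C * ((1 / 2) ^ i * (1 / 2) ^ j) := by linarith

lemma mul_sin_ge {t u : ℝ} (ht : 0 < t) (htu : |t * u| ≤ 1) : t * u ^ 2 / 2 ≤ u * Real.sin (t * u) := by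
  have key : ∀ v : ℝ, 0 ≤ v → v ≤ 1 → v / 2 ≤ Real.sin v := by
    intro v h0 h1
    rcases eq_or_lt_of_le h0 with h | h
    · rw [← h]; simp
    · have := Real.sin_gt_sub_cube h
      have h2 : v ^ 3 ≤ v := by
        calc v ^ 3 = v * v ^ 2 := by ring
          _ ≤ v * 1 := by gcongr; exact pow_le_one₀ h0 h1
          _ = v := mul_one v
      linarith
  have h1 : t * (t * u ^ 2 / 2) ≤ t * (u * Real.sin (t * u)) := by
    have h2 : t * (u * Real.sin (t * u)) = (t * u) * Real.sin (t * u) := by ring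
    have h3 : t * (t * u ^ 2 / 2) = (t * u) ^ 2 / 2 := by ring
    rw [h2, h3]
    set v := t * u
    rcases le_total 0 v with hv | hv
    · have := key v hv (le_of_abs_le htu)
      nlinarith
    · have h4 := key (-v) (by linarith) (by rw [← abs_of_nonpos hv]; exact htu)
      rw [Real.sin_neg] at h4
      nlinarith
  exact le_of_mul_le_mul_left h1 ht

include hC0 hC hx0 hx1 in
lemma I_main {j : ℕ} {a : ℝ} (ha1 : R j ≤ a) (ha2 : a ≤ 2 * R j) :
    x1 ^ 2 / 68 - 2 * C * ((1 / 2) ^ j * (1 / 2) ^ j) ≤ x1 * I x0 x1 j j a := by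
  have hx := abs_lt.mp hx0
  have h8 : 8 ≤ a := (eight_le_R j).trans ha1
  have hpos : 0 < a - x0 := by linarith
  have hN := N_pos j
  have hN1 := one_le_N j
  have hR : R j = 8 * N j := rfl
  have hp1 : 8 / 9 ≤ a / (a - x0) := by rw [div_le_div_iff₀ (by norm_num) hpos]; linarith
  have hfirst : 1 ≤ Ψ (N j * (a / (a - x0)) - N j) := by
    apply one_le_Ψ
    have h1 : N j * (a / (a - x0)) - N j = N j * x0 / (a - x0) := by
      field_simp
      ring
    rw [h1, abs_div, abs_mul, abs_of_pos hN, abs_of_pos hpos, div_le_iff₀ hpos]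
    nlinarith [abs_nonneg x0]
  have hsecond : |Ψ (N j * (a / (a - x0)) + N j)| ≤ 2 * C * ((1 / 2) ^ j * (1 / 2) ^ j) := by
    apply Ψ_small hC0 hC
    rw [max_self, abs_of_pos (by nlinarith)]
    nlinarith
  set A := Ψ (N j * (a / (a - x0)) - N j)
  set B := Ψ (N j * (a / (a - x0)) + N j)
  set t := N j / (a - x0) with ht
  have ht0 : 0 < t := div_pos hN hpos
  have ht1 : 1 / 17 ≤ t := by
    rw [ht, div_le_div_iff₀ (by norm_num) hpos]; linarith
  have ht2 : t ≤ 1 := by
    rw [ht, div_le_one hpos]; linarith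
  have harg : N j * (x1 / (a - x0)) = t * x1 := by rw [ht]; ring
  have htx : |t * x1| ≤ 1 := by
    rw [abs_mul, abs_of_pos ht0]; nlinarith [abs_nonneg x1]
  have hs := mul_sin_ge (u := x1) ht0 htx
  have hs2 : x1 ^ 2 / 34 ≤ x1 * Real.sin (t * x1) := by nlinarith [sq_nonneg x1]
  have hs3 : |x1 * Real.sin (t * x1)| ≤ 1 := by
    rw [abs_mul]
    have := Real.abs_sin_le_one (t * x1)
    nlinarith [abs_nonneg x1, abs_nonneg (Real.sin (t * x1))]
  unfold I
  rw [harg]
  change x1 ^ 2 / 68 - 2 * C * ((1 / 2) ^ j * (1 / 2) ^ j) ≤ x1 * (Real.sin (t * x1) * ((A - B) / 2))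
  set S := x1 * Real.sin (t * x1) with hS
  have e1 : x1 * (Real.sin (t * x1) * ((A - B) / 2)) = S * A / 2 - S * B / 2 := by rw [hS]; ring
  rw [e1]
  have h1 : x1 ^ 2 / 68 ≤ S * A / 2 := by
    have : 0 ≤ x1 ^ 2 / 34 := by positivity
    nlinarith
  have h2 : S * B / 2 ≤ 2 * C * ((1 / 2) ^ j * (1 / 2) ^ j) := by
    have h3 : |S * B| ≤ 1 * (2 * C * ((1 / 2) ^ j * (1 / 2) ^ j)) := by
      rw [abs_mul]
      exact mul_le_mul hs3 hsecond (abs_nonneg _) zero_le_one
    have h4 := le_abs_self (S * B)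
    have h5 : 0 ≤ 2 * C * ((1 / 2 : ℝ) ^ j * (1 / 2) ^ j) := by positivity
    linarith
  linarith

include hC0 hC hx0 hx1 in
lemma I_sum {J j : ℕ} (hj : j < J) {a : ℝ} (ha1 : R j ≤ a) (ha2 : a ≤ 2 * R j) :
    x1 ^ 2 / 68 - 4 * C * (1 / 2) ^ j ≤ x1 * ∑ i ∈ Finset.range J, I x0 x1 i j a := by
  have h8 : 8 ≤ a := (eight_le_R j).trans ha1
  rw [Finset.mul_sum]
  have hgeom : ∑ i ∈ Finset.range J, ((1 : ℝ) / 2) ^ i ≤ 2 := sum_geometric_two_le J
  have h1 : ∀ i ∈ Finset.range J, (if i = j then x1 ^ 2 / 68 else 0) -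
      2 * C * ((1 / 2) ^ i * (1 / 2) ^ j) ≤ x1 * I x0 x1 i j a := by
    intro i _
    by_cases hij : i = j
    · subst hij
      rw [if_pos rfl]
      exact I_main hC0 hC hx0 hx1 ha1 ha2
    · rw [if_neg hij]
      have := (abs_le.mp (I_err hC0 hC hx0 hx1 h8 hij)).1
      linarith
  refine le_trans ?_ (Finset.sum_le_sum h1)
  rw [Finset.sum_sub_distrib, Finset.sum_ite_eq' (Finset.range J) j,
    if_pos (Finset.mem_range.mpr hj), ← Finset.mul_sum, ← Finset.sum_mul]
  have h2 : 2 * C * ((∑ i ∈ Finset.range J, ((1 : ℝ) / 2) ^ i) * (1 / 2) ^ j) ≤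
      2 * C * (2 * (1 / 2) ^ j) := by gcongr
  linarith

end AngularBound

end Pool.Agent.H58.Rough
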