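import Pool.Agent.H58.Rough.Kernel

open MeasureTheory Filter Topology Metric Set
open scoped ENNReal Real NNReal

namespace Pool.Agent.H58.Rough

section PV

variable {r : ℝ → ℝ} (hr : Adm r) {f : E2 → ℝ} {ρ₀ : ℝ} {L : ℝ≥0}

/-- The symmetrised integrand. -/
noncomputable def G (r : ℝ → ℝ) (f : E2 → ℝ) (x y : E2) : ℝ :=
  (1 / 2) * (K r y * (f (x - y) - f (x + y)))

lemma measurableSet_gt (ε : ℝ) : MeasurableSet {y : E2 | ε < ‖y‖} :=
  measurableSet_lt measurable_const measurable_norm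

lemma measurable_G (hr : Adm r) (hf : Measurable f) (x : E2) : Measurable (G r f x) := by
  unfold G
  exact (((measurable_K hr.meas).mul ((hf.comp (measurable_id.const_sub x)).sub
    (hf.comp (measurable_id.const_add x))))).const_mul _

lemma f_zero_of_far (h0 : ∀ z : E2, ρ₀ < ‖z‖ → f z = 0) {x y : E2} (hy : ‖x‖ + ρ₀ < ‖y‖) :
    f (x - y) = 0 ∧ f (x + y) = 0 := by
  constructor
  · apply h0
    have := norm_sub_norm_le y x
    rw [norm_sub_rev] at this
    linarith
  · apply h0
    have := norm_sub_norm_le y (-x)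
    rw [norm_neg, sub_neg_eq_add, add_comm y x] at this
    linarith

include hr in
lemma integrable_G (hf : LipschitzWith L f) (h0 : ∀ z : E2, ρ₀ < ‖z‖ → f z = 0) (x : E2) :
    Integrable (G r f x) := by
  have hm := measurable_G hr hf.continuous.measurable x
  have hon : IntegrableOn (G r f x) {y : E2 | ‖y‖ ≤ ‖x‖ + ρ₀} := by
    have h1 : IntegrableOn (fun y => (L : ℝ) * (K r y * ‖y‖)) {y : E2 | ‖y‖ ≤ ‖x‖ + ρ₀} := by
      apply Integrable.const_mul
      refine ⟨((measurable_K hr.meas).mul measurable_norm).aestronglyMeasurable, ?_⟩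
      have := hr.near_lt_top (‖x‖ + ρ₀)
      unfold HasFiniteIntegral
      simpa [enorm_mul] using this
    refine Integrable.mono h1 hm.aestronglyMeasurable (Eventually.of_forall fun y => ?_)
    unfold G
    rw [norm_mul, norm_mul, norm_mul, norm_mul, norm_norm]
    have h2 : ‖f (x - y) - f (x + y)‖ ≤ L * (2 * ‖y‖) := by
      have := hf.dist_le_mul (x - y) (x + y)
      rw [dist_eq_norm, dist_eq_norm] at this
      have h3 : x - y - (x + y) = -(2 : ℝ) • y := by
        rw [neg_smul, two_smul]; abel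
      rw [h3, norm_smul] at this
      simpa using this
    have h4 : ‖(1 / 2 : ℝ)‖ = 1 / 2 := by norm_num
    have h5 : ‖(L : ℝ)‖ = L := by simp
    rw [h4, h5]
    calc 1 / 2 * (‖K r y‖ * ‖f (x - y) - f (x + y)‖) ≤ 1 / 2 * (‖K r y‖ * (L * (2 * ‖y‖))) := by
          gcongr
      _ = (L : ℝ) * (‖K r y‖ * ‖y‖) := by ring
  rw [integrableOn_iff_integrable_of_support_subset] at hon
  · exact hon
  · intro y hy
    by_contra hcon
    simp only [mem_ofPred_eq, not_le] at hcon
    apply hy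
    obtain ⟨h1, h2⟩ := f_zero_of_far h0 hcon
    simp [G, h1, h2]

include hr in
lemma integrableOn_Kf {ε : ℝ} (hε : 0 < ε) (hf : Continuous f) {B : ℝ} (hB : ∀ z, ‖f z‖ ≤ B)
    (h0 : ∀ z : E2, ρ₀ < ‖z‖ → f z = 0) (x : E2) :
    IntegrableOn (fun y => K r y * f (x - y)) {y : E2 | ε < ‖y‖} ∧
    IntegrableOn (fun y => K r y * f (x + y)) {y : E2 | ε < ‖y‖} := by
  have hK : IntegrableOn (K r) {y : E2 | ε ≤ ‖y‖ ∧ ‖y‖ ≤ ‖x‖ + ρ₀} :=
    hr.integrableOn_annulus _ hε
  have key : ∀ h : E2 → ℝ, Continuous h → (∀ y, ‖h y‖ ≤ B) →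
      (∀ y, ‖x‖ + ρ₀ < ‖y‖ → h y = 0) →
      IntegrableOn (fun y => K r y * h y) {y : E2 | ε < ‖y‖} := by
    intro h hh hB' hz
    have h1 : IntegrableOn (fun y => K r y * h y) {y : E2 | ε ≤ ‖y‖ ∧ ‖y‖ ≤ ‖x‖ + ρ₀} := by
      apply Integrable.mul_bdd (c := B) hK hh.aestronglyMeasurable
      exact Eventually.of_forall hB'
    have h2 : IntegrableOn (fun y => K r y * h y) {y : E2 | ‖x‖ + ρ₀ < ‖y‖} := by
      refine (integrableOn_zero (μ := volume)).congr_fun ?_ (measurableSet_gt _)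
      intro y hy
      simp only [mem_ofPred_eq] at hy
      simp [hz y hy]
    refine (h1.union h2).mono_set ?_
    intro y hy
    simp only [mem_ofPred_eq] at hy
    by_cases h3 : ‖y‖ ≤ ‖x‖ + ρ₀
    · left; exact ⟨hy.le, h3⟩
    · right; simpa using h3
  constructor
  · exact key _ (hf.comp (continuous_const.sub continuous_id)) (fun y => hB _)
      (fun y hy => (f_zero_of_far h0 hy).1)
  · exact key _ (hf.comp (continuous_const.add continuous_id)) (fun y => hB _)
      (fun y hy => (f_zero_of_far h0 hy).2)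

lemma setIntegral_neg_K (ε : ℝ) (x : E2) :
    ∫ y in {y : E2 | ε < ‖y‖}, K r y * f (x + y) = -∫ y in {y : E2 | ε < ‖y‖}, K r y * f (x - y) := by
  rw [← integral_indicator (measurableSet_gt ε), ← integral_indicator (measurableSet_gt ε),
    ← integral_neg, ← integral_neg_eq_self]
  apply integral_congr_ae (Eventually.of_forall fun y => ?_)
  by_cases hy : y ∈ {y : E2 | ε < ‖y‖}
  · have hy' : -y ∈ {y : E2 | ε < ‖y‖} := by simpa using hy
    simp only [indicator_of_mem hy, indicator_of_mem hy', K_neg, sub_eq_add_neg, neg_mul]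
  · have hy' : -y ∉ {y : E2 | ε < ‖y‖} := by simpa using hy
    simp only [indicator_of_notMem hy, indicator_of_notMem hy', neg_zero]

include hr in
lemma setIntegral_eq_G {ε : ℝ} (hε : 0 < ε) (hf : Continuous f) {B : ℝ} (hB : ∀ z, ‖f z‖ ≤ B)
    (h0 : ∀ z : E2, ρ₀ < ‖z‖ → f z = 0) (x : E2) :
    ∫ y in {y : E2 | ε < ‖y‖}, K r y * f (x - y) = ∫ y in {y : E2 | ε < ‖y‖}, G r f x y := by
  obtain ⟨h1, h2⟩ := integrableOn_Kf hr hε hf hB h0 x
  unfold G
  rw [integral_const_mul]
  have h3 : ∀ y, K r y * (f (x - y) - f (x + y)) = K r y * f (x - y) - K r y * f (x + y) :=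
    fun y => mul_sub _ _ _
  simp_rw [h3]
  rw [integral_sub h1 h2, setIntegral_neg_K]
  ring

include hr in
/-- The principal value exists everywhere for Lipschitz compactly supported `f`. -/
lemma tendsto_pv (hf : LipschitzWith L f) {B : ℝ} (hB : ∀ z, ‖f z‖ ≤ B)
    (h0 : ∀ z : E2, ρ₀ < ‖z‖ → f z = 0) (x : E2) :
    Tendsto (fun ε : ℝ => ∫ y in {y : E2 | ε < ‖y‖}, K r y * f (x - y)) (𝓝[>] 0)
      (𝓝 (∫ y, G r f x y)) := by
  have h1 : (fun ε : ℝ => ∫ y in {y : E2 | ε < ‖y‖}, K r y * f (x - y)) =ᶠ[𝓝[>] 0]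
      fun ε => ∫ y, {y : E2 | ε < ‖y‖}.indicator (G r f x) y := by
    filter_upwards [self_mem_nhdsWithin] with ε hε
    rw [setIntegral_eq_G hr hε hf.continuous hB h0, integral_indicator (measurableSet_gt ε)]
  rw [tendsto_congr' h1]
  refine tendsto_integral_filter_of_dominated_convergence (fun y => ‖G r f x y‖) ?_ ?_ ?_ ?_
  · exact Eventually.of_forall fun ε => ((measurable_G hr hf.continuous.measurable x).indicator
      (measurableSet_gt ε)).aestronglyMeasurable
  · exact Eventually.of_forall fun ε => Eventually.of_forall fun y => norm_indicator_le_norm_self _ _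
  · exact (integrable_G hr hf h0 x).norm
  · have hne : ∀ᵐ y : E2, y ≠ 0 := by
      rw [ae_iff]; simp
    filter_upwards [hne] with y hy
    apply tendsto_const_nhds.congr'
    have : ∀ᶠ ε : ℝ in 𝓝[>] 0, ε < ‖y‖ :=
      nhdsWithin_le_nhds (eventually_lt_nhds (norm_pos_iff.mpr hy))
    filter_upwards [this] with ε hε
    rw [indicator_of_mem (by simpa using hε)]

include hr in
/-- Away from the support of `f` the principal value is an absolutely convergent integral. -/
lemma integral_G_eq (hf : Continuous f) {B : ℝ} (hB : ∀ z, ‖f z‖ ≤ B)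
    (h0 : ∀ z : E2, ρ₀ < ‖z‖ → f z = 0) (x : E2)
    (h7 : ∀ y : E2, ‖y‖ < 7 → f (x - y) = 0 ∧ f (x + y) = 0) :
    Integrable (fun y => K r y * f (x - y)) ∧ ∫ y, G r f x y = ∫ y, K r y * f (x - y) := by
  have hs : ∀ y : E2, y ∉ {y : E2 | 6 < ‖y‖} → f (x - y) = 0 ∧ f (x + y) = 0 := by
    intro y hy
    simp only [mem_ofPred_eq, not_lt] at hy
    exact h7 y (by linarith)
  constructor
  · rw [← integrableOn_iff_integrable_of_support_subset (s := {y : E2 | 6 < ‖y‖})]
    · exact (integrableOn_Kf hr (by norm_num) hf hB h0 x).1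
    · intro y hy
      by_contra hcon
      apply hy
      simp [(hs y hcon).1]
  · rw [← setIntegral_eq_integral_of_forall_compl_eq_zero (s := {y : E2 | 6 < ‖y‖}),
      ← setIntegral_eq_G hr (by norm_num) hf hB h0 x,
      setIntegral_eq_integral_of_forall_compl_eq_zero]
    · intro y hy
      simp [(hs y hy).1]
    · intro y hy
      simp [G, (hs y hy).1, (hs y hy).2]

end PV

end Pool.Agent.H58.Rough
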