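import Pool.Agent.H58.Rough.Lower

open MeasureTheory Filter Topology Metric Set
open scoped ENNReal Real NNReal

namespace Pool.Agent.H58.Rough

lemma rJ_of_abs_le {J : ℕ} {s : ℝ} (h : |s| ≤ π) :
    rJ J s = ∑ i ∈ Finset.range J, Real.cos (N i * s) := by
  unfold rJ
  rw [indicator_of_mem (mem_Icc.mpr (abs_le.mp h))]

lemma rJ_adm (J : ℕ) : Adm (rJ J) where
  meas := by
    unfold rJ
    apply Measurable.indicator _ measurableSet_Icc
    fun_prop
  supp := by
    intro s hs
    unfold rJ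
    rw [indicator_of_notMem]
    intro h
    have := abs_le.mpr h
    linarith
  sq := by
    have h : ∀ s, ‖(rJ J s) ^ 2‖ₑ ≤ (Icc (-π) π).indicator (fun _ => ENNReal.ofReal ((J : ℝ) ^ 2)) s := by
      intro s
      by_cases hs : s ∈ Icc (-π) π
      · rw [indicator_of_mem hs, rJ_of_abs_le (abs_le.mpr hs), ← ofReal_norm]
        apply ENNReal.ofReal_le_ofReal
        rw [norm_pow]
        apply pow_le_pow_left₀ (norm_nonneg _)
        calc ‖∑ i ∈ Finset.range J, Real.cos (N i * s)‖
            ≤ ∑ i ∈ Finset.range J, ‖Real.cos (N i * s)‖ := norm_sum_le _ _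
          _ ≤ ∑ i ∈ Finset.range J, 1 := Finset.sum_le_sum fun i _ => Real.abs_cos_le_one _
          _ = J := by simp
      · rw [indicator_of_notMem hs]
        unfold rJ
        rw [indicator_of_notMem hs]
        simp
    refine (lintegral_mono h).trans_lt ?_
    rw [lintegral_indicator measurableSet_Icc, lintegral_const, Measure.restrict_apply_univ,
      Real.volume_Icc]
    exact ENNReal.mul_lt_top ENNReal.ofReal_lt_top ENNReal.ofReal_lt_top

lemma tf_pt {J : ℕ} {a : ℝ} (ha : a ≠ 0) (s : ℝ) :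
    tf J (pt a (a * s)) =
      ∑ j ∈ Finset.range J, η (a / R j) * (ψ s * Real.sin (N j * s)) := by
  unfold tf blk
  simp only [pt_zero, pt_one, mul_div_cancel_left₀ _ ha]

section

variable {x0 x1 : ℝ} (hx0 : |x0| < 1) (hx1 : |x1| < 1)
include hx0 hx1

lemma integrand_formula (J : ℕ) {a : ℝ} (ha : 8 < a) (s : ℝ) :
    |a| * (K (rJ J) (pt x0 x1 - pt a (a * s)) * tf J (pt a (a * s))) =
      -∑ j ∈ Finset.range J, w x0 j a * ∑ i ∈ Finset.range J,
        ψ s * (Real.sin (N j * s) * Real.cos (N i * (a / (a - x0)) * s - N i * (x1 / (a - x0)))) := by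
  have hx := abs_lt.mp hx0
  have hx' := abs_lt.mp hx1
  have hpos : 0 < a - x0 := by linarith
  have ha0 : 0 < a := by linarith
  rw [tf_pt ha0.ne']
  by_cases hs : 2 ≤ |s|
  · simp [ψ_zero hs]
  push Not at hs
  have hK : K (rJ J) (pt x0 x1 - pt a (a * s)) =
      -(((a - x0) ^ 2)⁻¹ * ∑ i ∈ Finset.range J,
        Real.cos (N i * (a / (a - x0)) * s - N i * (x1 / (a - x0)))) := by
    unfold K
    have e0 : (pt x0 x1 - pt a (a * s)) 0 = x0 - a := rfl
    have e1 : (pt x0 x1 - pt a (a * s)) 1 = x1 - a * s := rfl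
    rw [e0, e1]
    have h1 : (x1 - a * s) / (x0 - a) = (a * s - x1) / (a - x0) := by
      rw [← neg_sub a x0, ← neg_sub (a * s) x1, neg_div_neg_eq]
    have h2 : |x0 - a| = a - x0 := by rw [abs_of_nonpos (by linarith)]; ring
    have h3 : (x0 - a) * (a - x0) = -(a - x0) ^ 2 := by ring
    rw [h1, h2, h3, inv_neg]
    have h4 : |(a * s - x1) / (a - x0)| ≤ π := by
      rw [abs_div, abs_of_pos hpos, div_le_iff₀ hpos]
      have h5 : |a * s - x1| ≤ a * 2 + 1 := by
        calc |a * s - x1| ≤ |a * s| + |x1| := abs_sub _ _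
          _ ≤ a * 2 + 1 := by
            rw [abs_mul, abs_of_pos ha0]
            nlinarith [abs_nonneg s]
      have := Real.pi_gt_three
      nlinarith
    rw [rJ_of_abs_le h4, neg_mul]
    congr 2
    apply Finset.sum_congr rfl
    intro i _
    congr 1
    field_simp
  rw [hK, abs_of_pos ha0]
  unfold w
  have hS : ∀ j, ∑ i ∈ Finset.range J, ψ s * (Real.sin (N j * s) *
      Real.cos (N i * (a / (a - x0)) * s - N i * (x1 / (a - x0)))) =
      ψ s * Real.sin (N j * s) * ∑ i ∈ Finset.range J,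
        Real.cos (N i * (a / (a - x0)) * s - N i * (x1 / (a - x0))) := by
    intro j
    rw [Finset.mul_sum]
    exact Finset.sum_congr rfl fun i _ => by ring
  simp_rw [hS]
  set T := ∑ i ∈ Finset.range J, Real.cos (N i * (a / (a - x0)) * s - N i * (x1 / (a - x0)))
  rw [Finset.mul_sum, Finset.mul_sum, ← Finset.sum_neg_distrib]
  apply Finset.sum_congr rfl
  intro j _
  generalize η (a / R j) = e
  rw [div_eq_mul_inv a]
  ring

lemma inner_formula (J : ℕ) (a : ℝ) :
    ∫ s, |a| * (K (rJ J) (pt x0 x1 - pt a (a * s)) * tf J (pt a (a * s))) =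
      -∑ j ∈ Finset.range J, w x0 j a * ∑ i ∈ Finset.range J, I x0 x1 i j a := by
  by_cases ha : a ≤ 8
  · have h1 : ∀ s, tf J (pt a (a * s)) = 0 := fun s => tf_zero_of_near J _ ha
    have h2 : ∀ j, w x0 j a = 0 := fun j => w_zero (Or.inl (ha.trans (eight_le_R j)))
    simp [h1, h2]
  push Not at ha
  simp_rw [integrand_formula hx0 hx1 J ha]
  have hint : ∀ i j : ℕ, Integrable fun s => ψ s * (Real.sin (N j * s) *
      Real.cos (N i * (a / (a - x0)) * s - N i * (x1 / (a - x0)))) := fun i j =>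
    integrable_ψ_mul (by fun_prop)
  rw [integral_neg, integral_finsetSum]
  · congr 1
    apply Finset.sum_congr rfl
    intro j _
    rw [integral_const_mul, integral_finsetSum _ fun i _ => hint i j]
    congr 1
    apply Finset.sum_congr rfl
    intro i _
    rw [angular]
    rfl
  · intro j _
    exact (integrable_finsetSum _ fun i _ => hint i j).const_mul _

end

/-- The value at `x` of the operator applied to the test function. -/
noncomputable def hJ (r : ℝ → ℝ) (J : ℕ) (x : E2) : ℝ := ∫ y, K r y * tf J (x - y)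

lemma coord_lt {x : E2} (hx : ‖x‖ < 1) : |x 0| < 1 ∧ |x 1| < 1 := by
  constructor
  · have := abs_le_norm_pt (x 0) (x 1)
    rw [pt_coord] at this
    linarith
  · have h1 : |x 1| ≤ ‖x‖ := by
      apply abs_le_of_sq_le_sq' _ (norm_nonneg _) |> abs_le.mpr
      rw [← pt_coord x, norm_pt_sq]
      simp only [pt_one]
      nlinarith [sq_nonneg (x 0)]
    linarith

lemma near_of_norm_lt {J : ℕ} {x : E2} (hx : ‖x‖ < 1) (y : E2) (hy : ‖y‖ < 7) :
    tf J (x - y) = 0 ∧ tf J (x + y) = 0 := by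
  have h1 := (coord_lt hx).1
  have h2 : |y 0| < 7 := by
    have := abs_le_norm_pt (y 0) (y 1)
    rw [pt_coord] at this
    linarith
  have h1' := abs_lt.mp h1
  have h2' := abs_lt.mp h2
  constructor
  · apply tf_zero_of_near
    change x 0 - y 0 ≤ 8
    linarith
  · apply tf_zero_of_near
    change x 0 + y 0 ≤ 8
    linarith

lemma integrable_Ktf {r : ℝ → ℝ} (hr : Adm r) (J : ℕ) {x : E2} (hx : ‖x‖ < 1) :
    Integrable fun y => K r y * tf J (x - y) :=
  (integral_G_eq hr (tf_continuous J) (fun z => abs_tf_le J z) (tf_zero_of_far J) x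
    (near_of_norm_lt hx)).1

/-- The main lower bound. -/
lemma lower : ∃ C : ℝ, ∀ (J : ℕ) (x : E2), ‖x‖ < 1 →
    (x 1) ^ 2 * J / 340 - C ≤ -(x 1 * hJ (rJ J) J x) := by
  obtain ⟨C, hC0, hC⟩ := exists_Ψ_decay
  refine ⟨16 * C, fun J x hx => ?_⟩
  obtain ⟨hx0, hx1⟩ := coord_lt hx
  have hxpt : pt (x 0) (x 1) = x := pt_coord x
  set F : E2 → ℝ := fun y => K (rJ J) (x - y) * tf J y with hF
  have hint0 := integrable_Ktf (rJ_adm J) J hx
  have hFint : Integrable F := by
    have := hint0.comp_sub_left x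
    refine this.congr (Eventually.of_forall fun y => ?_)
    simp [hF]
  have hval : hJ (rJ J) J x = ∫ y, F y := by
    unfold hJ
    rw [← integral_sub_left_eq_self F volume x]
    congr 1
    funext y
    simp [hF]
  rw [hval, integral_E2 F hFint]
  have hH : ∀ a : ℝ, ∫ s, |a| * F (pt a (a * s)) =
      -∑ j ∈ Finset.range J, w (x 0) j a * ∑ i ∈ Finset.range J, I (x 0) (x 1) i j a := by
    intro a
    have := inner_formula hx0 hx1 J a
    rw [hxpt] at this
    exact this
  have hHint := integrable_outer F hFint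
  rw [← neg_mul, ← integral_const_mul]
  have hlow : ∀ a : ℝ, ∑ j ∈ Finset.range J, w (x 0) j a * ((x 1) ^ 2 / 68 - 4 * C * (1 / 2) ^ j) ≤
      -x 1 * ∫ s, |a| * F (pt a (a * s)) := by
    intro a
    rw [hH a, neg_mul_neg, Finset.mul_sum]
    apply Finset.sum_le_sum
    intro j hj
    by_cases haj : a ≤ R j ∨ 2 * R j ≤ a
    · rw [w_zero haj]; simp
    · push Not at haj
      have h1 := I_sum hC0 hC hx0 hx1 (Finset.mem_range.mp hj) haj.1.le haj.2.le
      have h2 := w_nonneg hx0 j a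
      calc w (x 0) j a * ((x 1) ^ 2 / 68 - 4 * C * (1 / 2) ^ j)
          ≤ w (x 0) j a * (x 1 * ∑ i ∈ Finset.range J, I (x 0) (x 1) i j a) := by gcongr
        _ = x 1 * (w (x 0) j a * ∑ i ∈ Finset.range J, I (x 0) (x 1) i j a) := by ring
  have hlowint : Integrable fun a => ∑ j ∈ Finset.range J,
      w (x 0) j a * ((x 1) ^ 2 / 68 - 4 * C * (1 / 2) ^ j) :=
    integrable_finsetSum _ fun j _ => (w_integrable hx0 j).mul_const _
  refine le_trans ?_ (integral_mono hlowint (hHint.const_mul _) hlow)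
  rw [integral_finsetSum _ fun j _ => (w_integrable hx0 j).mul_const _]
  simp_rw [integral_mul_const]
  have hterm : ∀ j ∈ Finset.range J, (x 1) ^ 2 / 340 - 8 * C * (1 / 2) ^ j ≤
      (∫ a, w (x 0) j a) * ((x 1) ^ 2 / 68 - 4 * C * (1 / 2) ^ j) := by
    intro j _
    have h1 := integral_w_le hx0 j
    have h2 := le_integral_w hx0 j
    set W := ∫ a, w (x 0) j a
    have h3 : 0 ≤ (x 1) ^ 2 / 68 := by positivity
    have h4 : 0 ≤ 4 * C * (1 / 2 : ℝ) ^ j := by positivity
    nlinarith
  refine le_trans ?_ (Finset.sum_le_sum hterm)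
  rw [Finset.sum_sub_distrib, Finset.sum_const, Finset.card_range, nsmul_eq_mul, ← Finset.mul_sum]
  have hgeom : ∑ i ∈ Finset.range J, ((1 : ℝ) / 2) ^ i ≤ 2 := sum_geometric_two_le J
  have h5 : 8 * C * ∑ i ∈ Finset.range J, ((1 : ℝ) / 2) ^ i ≤ 8 * C * 2 := by gcongr
  have h6 : (J : ℝ) * (x 1 ^ 2 / 340) = x 1 ^ 2 * J / 340 := by ring
  linarith

end Pool.Agent.H58.Rough
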