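import Pool.Agent.H58.Rough.Final

open MeasureTheory Filter Topology Metric Set
open scoped ENNReal Real NNReal Pointwise

namespace Pool.Agent.H58.Rough

/-- Surface measure on the unit circle. -/
noncomputable abbrev sig : Measure (sphere (0 : E2) 1) := (volume : Measure E2).toSphere

lemma K_sphere_smul (r : ℝ → ℝ) (t : ℝ) (ht : 0 < t) (y : E2) :
    K r (t • y) = (t ^ 2)⁻¹ * K r y := by
  rw [K_smul r t ht y, zpow_neg]
  norm_cast

/-- The angular part is square integrable. -/
lemma Adm.sphere_sq {r : ℝ → ℝ} (hr : Adm r) :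
    ∫⁻ ω : sphere (0 : E2) 1, ‖(K r ω) ^ 2‖ₑ ∂sig < ∞ := by
  have hm : Measurable fun y : E2 => ‖(K r y) ^ 2‖ₑ := ((measurable_K hr.meas).pow_const 2).enorm
  have hms : MeasurableSet {y : E2 | 1 ≤ ‖y‖ ∧ ‖y‖ ≤ 2} :=
    (measurableSet_le measurable_const measurable_norm).inter
      (measurableSet_le measurable_norm measurable_const)
  set F : E2 → ℝ≥0∞ := {y : E2 | 1 ≤ ‖y‖ ∧ ‖y‖ ≤ 2}.indicator fun y => ‖(K r y) ^ 2‖ₑ with hF
  have hFm : Measurable F := hm.indicator hms
  have hGm : Measurable fun p : sphere (0 : E2) 1 × Ioi (0 : ℝ) =>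
      F ((homeomorphUnitSphereProd E2).symm p) :=
    hFm.comp (measurable_subtype_coe.comp (homeomorphUnitSphereProd E2).symm.measurable)
  have h1 : ∫⁻ y, F y = ∫⁻ p : sphere (0 : E2) 1 × Ioi (0 : ℝ),
      F ((homeomorphUnitSphereProd E2).symm p) ∂(sig.prod (Measure.volumeIoiPow (Module.finrank ℝ E2 - 1))) := by
    have hmp := (volume : Measure E2).measurePreserving_homeomorphUnitSphereProd
    have h2 := hmp.lintegral_comp (f := fun p => F ((homeomorphUnitSphereProd E2).symm p)) hGm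
    rw [← h2]
    simp only [Homeomorph.symm_apply_apply]
    rw [lintegral_subtype_comap (measurableSet_singleton _).compl, restrict_compl_singleton]
  have hfin : Module.finrank ℝ E2 - 1 = 1 := by simp
  rw [hfin] at h1
  have hA : (Measure.volumeIoiPow 1) (Iio ⟨2, by norm_num⟩ \ Iio ⟨1, by norm_num⟩) = ENNReal.ofReal (3 / 2) := by
    rw [measure_sdiff]
    · rw [Measure.volumeIoiPow_apply_Iio, Measure.volumeIoiPow_apply_Iio,
        ← ENNReal.ofReal_sub _ (by positivity)]
      norm_num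
    · intro x hx
      simp only [mem_Iio] at hx ⊢
      exact hx.trans (by
        rw [← Subtype.coe_lt_coe]; norm_num)
    · exact measurableSet_Iio.nullMeasurableSet
    · rw [Measure.volumeIoiPow_apply_Iio]; exact ENNReal.ofReal_ne_top
  set A : Set (Ioi (0 : ℝ)) := Iio ⟨2, by norm_num⟩ \ Iio ⟨1, by norm_num⟩ with hAdef
  have hAm : MeasurableSet A := measurableSet_Iio.diff measurableSet_Iio
  have h3 : ∫⁻ ω : sphere (0 : E2) 1, ‖(K r ω) ^ 2‖ₑ * (ENNReal.ofReal (1 / 16) * ENNReal.ofReal (3 / 2)) ∂sig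
      ≤ ∫⁻ y, F y := by
    rw [h1, lintegral_prod _ hGm.aemeasurable]
    apply lintegral_mono
    intro ω
    simp only
    rw [← hA, ← mul_assoc, ← setLIntegral_const, ← lintegral_indicator hAm]
    apply lintegral_mono
    intro t
    show _ ≤ F ((homeomorphUnitSphereProd E2).symm (ω, t))
    by_cases ht : t ∈ A
    · rw [indicator_of_mem ht]
      have ht1 : (1 : ℝ) ≤ t.1 := by
        have := ht.2
        simp only [mem_Iio, not_lt] at this
        exact this
      have ht2 : t.1 < (2 : ℝ) := by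
        have := ht.1
        simp only [mem_Iio] at this
        exact this
      have ht0 : 0 < t.1 := t.2
      have hω : ‖(ω : E2)‖ = 1 := by simp
      have hval : (((homeomorphUnitSphereProd E2).symm (ω, t) : ({0}ᶜ : Set E2)) : E2) = t.1 • (ω : E2) := by
        simp
      rw [hval, hF, indicator_of_mem]
      · rw [K_sphere_smul r t.1 ht0, mul_pow, enorm_mul, mul_comm]
        gcongr
        rw [← ofReal_norm]
        apply ENNReal.ofReal_le_ofReal
        rw [Real.norm_eq_abs, abs_of_nonneg (by positivity)]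
        have h5 : t.1 ^ 2 ≤ 4 := by nlinarith
        have h6 : (1 : ℝ) / 4 ≤ (t.1 ^ 2)⁻¹ := by
          rw [one_div]; exact inv_anti₀ (by positivity) h5
        calc (1 : ℝ) / 16 = (1 / 4) ^ 2 := by norm_num
          _ ≤ _ := pow_le_pow_left₀ (by norm_num) h6 2
      · simp only [mem_ofPred_eq, norm_smul, hω, mul_one, Real.norm_eq_abs, abs_of_pos ht0]
        exact ⟨ht1, ht2.le⟩
    · rw [indicator_of_notMem ht]
      exact zero_le
  have h4 : ∫⁻ y, F y < ∞ := by
    rw [hF, lintegral_indicator hms]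
    exact hr.sq_lt_top
  have hm' : Measurable fun ω : sphere (0 : E2) 1 => ‖(K r ω) ^ 2‖ₑ :=
    hm.comp measurable_subtype_coe
  rw [lintegral_mul_const _ hm'] at h3
  have h5 := h3.trans_lt h4
  by_contra hcon
  rw [not_lt, top_le_iff] at hcon
  rw [hcon, ENNReal.top_mul] at h5
  · exact lt_irrefl _ h5
  · rw [← ENNReal.ofReal_mul (by norm_num)]
    simp

/-- Oddness gives mean value zero on the circle. -/
lemma integral_sphere (r : ℝ → ℝ) : ∫ ω : sphere (0 : E2) 1, K r ω ∂sig = 0 := by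
  have hneg : MeasurePreserving (fun ω : sphere (0 : E2) 1 => -ω) sig sig := by
    refine ⟨measurable_neg, ?_⟩
    ext s hs
    rw [Measure.map_apply measurable_neg hs, Measure.toSphere_apply' _ (measurable_neg hs),
      Measure.toSphere_apply' _ hs]
    congr 1
    have : Ioo (0 : ℝ) 1 • ((↑) '' ((fun ω : sphere (0 : E2) 1 => -ω) ⁻¹' s) : Set E2) =
        Neg.neg ⁻¹' (Ioo (0 : ℝ) 1 • ((↑) '' s : Set E2)) := by
      ext x
      constructor
      · rintro ⟨t, ht, _, ⟨ω, hω, rfl⟩, rfl⟩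
        refine ⟨t, ht, _, ⟨-ω, hω, rfl⟩, ?_⟩
        simp
      · rintro ⟨t, ht, _, ⟨ω, hω, rfl⟩, hx⟩
        refine ⟨t, ht, _, ⟨-ω, by simpa using hω, rfl⟩, ?_⟩
        have : x = -(t • (ω : E2)) := by
          have hx' : t • (ω : E2) = -x := hx
          rw [hx']; simp
        rw [this]; simp
    rw [this]
    exact Measure.measure_preimage_neg _ _
  have h1 : ∫ ω : sphere (0 : E2) 1, K r ω ∂sig = ∫ ω : sphere (0 : E2) 1, K r ((-ω : sphere (0 : E2) 1) : E2) ∂sig := by
    rw [← hneg.integral_comp (Homeomorph.neg _).measurableEmbedding (fun ω : sphere (0 : E2) 1 => K r ω)]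
  have h2 : ∀ ω : sphere (0 : E2) 1, K r ((-ω : sphere (0 : E2) 1) : E2) = -K r ω := by
    intro ω
    exact K_neg r ω
  simp_rw [h2] at h1
  rw [integral_neg] at h1
  linarith

lemma Adm.memLp_sphere {r : ℝ → ℝ} (hr : Adm r) :
    MemLp (fun ω : sphere (0 : E2) 1 => K r ω) 2 sig := by
  rw [memLp_two_iff_integrable_sq]
  · refine ⟨?_, ?_⟩
    · exact (((measurable_K hr.meas).comp measurable_subtype_coe).pow_const 2).aestronglyMeasurable
    · exact hr.sphere_sq
  · exact ((measurable_K hr.meas).comp measurable_subtype_coe).aestronglyMeasurable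

/-- The principal value of `K f` for a Lipschitz compactly supported `f`. -/
noncomputable def pvK (r : ℝ → ℝ) (f : E2 → ℝ) (x : E2) : ℝ := ∫ y, G r f x y

lemma pvK_measurable {r : ℝ → ℝ} (hr : Adm r) {f : E2 → ℝ} (hf : Measurable f) :
    StronglyMeasurable (pvK r f) := by
  unfold pvK G
  apply StronglyMeasurable.integral_prod_right
    (f := fun (x : E2) (y : E2) => 1 / 2 * (K r y * (f (x - y) - f (x + y))))
  apply Measurable.stronglyMeasurable
  exact (((measurable_K hr.meas).comp measurable_snd).mul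
    ((hf.comp (measurable_fst.sub measurable_snd)).sub
      (hf.comp (measurable_fst.add measurable_snd)))).const_mul _

lemma pvK_bound {r : ℝ → ℝ} (hr : Adm r) {f : E2 → ℝ} {L : ℝ≥0} (hf : LipschitzWith L f)
    {ρ₀ : ℝ} (h0 : ∀ z : E2, ρ₀ < ‖z‖ → f z = 0) {R : ℝ} {x : E2} (hx : ‖x‖ ≤ R) :
    ‖pvK r f x‖ ≤ L * (∫⁻ y in {y : E2 | ‖y‖ ≤ R + ρ₀}, ‖K r y‖ₑ * ‖y‖ₑ).toReal := by
  have hms : MeasurableSet {y : E2 | ‖y‖ ≤ R + ρ₀} :=
    (measurableSet_le measurable_norm measurable_const)
  have hlt := hr.near_lt_top (R + ρ₀)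
  have h1 : ‖pvK r f x‖ₑ ≤ L * ∫⁻ y in {y : E2 | ‖y‖ ≤ R + ρ₀}, ‖K r y‖ₑ * ‖y‖ₑ := by
    unfold pvK
    refine (enorm_integral_le_lintegral_enorm _).trans ?_
    have hmm : Measurable fun y : E2 => ‖K r y‖ₑ * ‖y‖ₑ :=
      (measurable_K hr.meas).enorm.mul measurable_enorm
    rw [← lintegral_const_mul _ hmm,
      ← lintegral_indicator hms]
    apply lintegral_mono
    intro y
    by_cases hy : y ∈ {y : E2 | ‖y‖ ≤ R + ρ₀}
    · rw [indicator_of_mem hy]
      have h2 : ‖f (x - y) - f (x + y)‖ₑ ≤ L * (2 * ‖y‖ₑ) := by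
        have := hf.edist_le_mul (x - y) (x + y)
        rw [edist_eq_enorm_sub, edist_eq_enorm_sub] at this
        refine this.trans ?_
        gcongr
        have h3 : x - y - (x + y) = -(y + y) := by abel
        rw [h3, enorm_neg, two_mul]
        exact enorm_add_le _ _
      unfold G
      beta_reduce
      rw [enorm_mul, enorm_mul]
      calc ‖(1 / 2 : ℝ)‖ₑ * (‖K r y‖ₑ * ‖f (x - y) - f (x + y)‖ₑ)
          ≤ ‖(1 / 2 : ℝ)‖ₑ * (‖K r y‖ₑ * (L * (2 * ‖y‖ₑ))) := by gcongr
        _ = (‖(1 / 2 : ℝ)‖ₑ * 2) * (L * (‖K r y‖ₑ * ‖y‖ₑ)) := by ring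
        _ = L * (‖K r y‖ₑ * ‖y‖ₑ) := by
          have h4 : ‖(1 / 2 : ℝ)‖ₑ * 2 = 1 := by
            have h5 : (2 : ℝ≥0∞) = ‖(2 : ℝ)‖ₑ := by
              rw [← ofReal_norm]; simp
            rw [h5, ← enorm_mul]; norm_num
          rw [h4, one_mul]
    · rw [indicator_of_notMem hy]
      have hy' : ‖x‖ + ρ₀ < ‖y‖ := by
        simp only [mem_ofPred_eq, not_le] at hy
        linarith
      obtain ⟨h2, h3⟩ := f_zero_of_far h0 hy'
      unfold G
      beta_reduce
      rw [h2, h3]; simp
  have h6 : ‖pvK r f x‖ = (‖pvK r f x‖ₑ).toReal := by simp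
  rw [h6]
  have h7 : (L : ℝ) * (∫⁻ y in {y : E2 | ‖y‖ ≤ R + ρ₀}, ‖K r y‖ₑ * ‖y‖ₑ).toReal =
      (L * ∫⁻ y in {y : E2 | ‖y‖ ≤ R + ρ₀}, ‖K r y‖ₑ * ‖y‖ₑ).toReal := by
    rw [ENNReal.toReal_mul]; simp
  rw [h7]
  exact ENNReal.toReal_mono (ENNReal.mul_ne_top ENNReal.coe_ne_top hlt.ne) h1

lemma pvK_locallyIntegrable {r : ℝ → ℝ} (hr : Adm r) {f : E2 → ℝ} {L : ℝ≥0}
    (hf : LipschitzWith L f) {ρ₀ : ℝ} (h0 : ∀ z : E2, ρ₀ < ‖z‖ → f z = 0) :
    LocallyIntegrable (pvK r f) := by
  rw [locallyIntegrable_iff]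
  intro S hS
  obtain ⟨R, hR⟩ := hS.isBounded.exists_norm_le
  refine IntegrableOn.of_bound hS.measure_lt_top
    (pvK_measurable hr hf.continuous.measurable).aestronglyMeasurable
    (L * (∫⁻ y in {y : E2 | ‖y‖ ≤ R + ρ₀}, ‖K r y‖ₑ * ‖y‖ₑ).toReal) ?_
  filter_upwards [ae_restrict_mem hS.measurableSet] with x hx
  exact pvK_bound hr hf h0 (hR x hx)

/-- The functionals are controlled by the mean oscillation on any set containing the unit ball. -/
lemma Λ_le_osc (ω : X) (J : ℕ) (Q : Set E2) (hBQ : ball (0 : E2) 1 ⊆ Q)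
    (hQ : volume Q ≠ ∞) (hint : IntegrableOn (pvK (rep ω) (tf J)) Q) :
    |Λ J ω| ≤ volume.real Q *
      ⨍ x in Q, |pvK (rep ω) (tf J) x - ⨍ y in Q, pvK (rep ω) (tf J) y| := by
  set B : Set E2 := ball 0 1 with hB
  have hvol : volume B < ∞ := measure_ball_lt_top
  have hvol0 : volume B ≠ 0 := (measure_ball_pos _ _ one_pos).ne'
  have hQ0 : volume Q ≠ 0 := fun h => hvol0 (measure_mono_null hBQ h)
  set g : E2 → ℝ := pvK (rep ω) (tf J) with hg
  set m : ℝ := ⨍ y in Q, g y with hm
  have hgh : ∀ x ∈ B, g x = hJ (rep ω) J x := by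
    intro x hx
    rw [hB, mem_ball, dist_zero_right] at hx
    exact (integral_G_eq (rep_adm ω) (tf_continuous J) (fun z => abs_tf_le J z)
      (tf_zero_of_far J) x (near_of_norm_lt hx)).2
  have hcoordint : IntegrableOn (fun x : E2 => x 1) B := by
    refine IntegrableOn.of_bound hvol (measurable_coord 1).aestronglyMeasurable 1 ?_
    filter_upwards [ae_restrict_mem measurableSet_ball] with x hx
    rw [mem_ball, dist_zero_right] at hx
    exact (coord_lt hx).2.le
  have hmean : ∫ x in B, x 1 = 0 := by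
    rw [← integral_indicator measurableSet_ball]
    set F : E2 → ℝ := B.indicator fun x => x 1 with hF
    have h1 : ∀ x, F (-x) = -F x := by
      intro x
      by_cases hx : x ∈ B
      · have hx' : -x ∈ B := by simpa [hB] using hx
        rw [hF, indicator_of_mem hx, indicator_of_mem hx']
        rfl
      · have hx' : -x ∉ B := by simpa [hB] using hx
        rw [hF, indicator_of_notMem hx, indicator_of_notMem hx', neg_zero]
    have h2 : ∫ x, F x = -∫ x, F x := by
      conv_lhs => rw [← integral_neg_eq_self]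
      rw [← integral_neg]
      exact integral_congr_ae (Eventually.of_forall h1)
    linarith
  have hgQ : IntegrableOn (fun x => |g x - m|) Q :=
    (hint.sub (integrableOn_const hQ)).abs
  have hgm : IntegrableOn (fun x => |g x - m|) B := hgQ.mono_set hBQ
  have hprod : IntegrableOn (fun x : E2 => x 1 * (g x - m)) B := by
    refine Integrable.mono' hgm ?_ ?_
    · exact (measurable_coord 1).aestronglyMeasurable.mul
        ((hint.mono_set hBQ).aestronglyMeasurable.sub aestronglyMeasurable_const)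
    · filter_upwards [ae_restrict_mem measurableSet_ball] with x hx
      rw [mem_ball, dist_zero_right] at hx
      rw [norm_mul, Real.norm_eq_abs, Real.norm_eq_abs]
      calc |x 1| * |g x - m| ≤ 1 * |g x - m| := by
            gcongr; exact (coord_lt hx).2.le
        _ = _ := one_mul _
  have hΛ : Λ J ω = ∫ x in B, x 1 * (g x - m) := by
    have h1 : ∫ x in B, x 1 * (g x - m) + x 1 * m = ∫ x in B, x 1 * (g x - m) := by
      rw [integral_add hprod (hcoordint.mul_const m), integral_mul_const, hmean, zero_mul, add_zero]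
    rw [← h1, Λ_apply]
    apply setIntegral_congr_fun measurableSet_ball
    intro x hx
    simp only
    rw [← hgh x hx]
    ring
  have hpos : 0 < volume.real Q := ENNReal.toReal_pos hQ0 hQ
  rw [setAverage_eq, smul_eq_mul, ← mul_assoc, mul_inv_cancel₀ hpos.ne', one_mul, hΛ,
    ← Real.norm_eq_abs]
  refine (norm_integral_le_integral_norm _).trans (le_trans ?_
    (setIntegral_mono_set hgQ (Eventually.of_forall fun x => abs_nonneg _) hBQ.eventuallyLE))
  apply setIntegral_mono_on hprod.norm hgm measurableSet_ball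
  intro x hx
  rw [hB, mem_ball, dist_zero_right] at hx
  rw [norm_mul, Real.norm_eq_abs, Real.norm_eq_abs]
  calc |x 1| * |g x - m| ≤ 1 * |g x - m| := by
        gcongr; exact (coord_lt hx).2.le
    _ = _ := one_mul _

/-- One kernel with unbounded functionals. -/
lemma exists_unbounded : ∃ ω : X, ∀ C : ℝ, ∃ J : ℕ, C < |Λ J ω| := by
  have h := no_uniform_bound
  push Not at h
  exact h

end Pool.Agent.H58.Rough
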