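import Pool.Agent.H58.Rough.PV

open MeasureTheory Filter Topology Metric Set
open scoped ENNReal Real NNReal

namespace Pool.Agent.H58.Rough

/-- Radial bump, equal to `1` on `[5/4, 7/4]`, supported in `(1, 2)`. -/
noncomputable def η : ContDiffBump (3 / 2 : ℝ) :=
  { rIn := 1 / 4, rOut := 1 / 2, rIn_pos := by norm_num, rIn_lt_rOut := by norm_num }

/-- Angular bump, equal to `1` on `[-1, 1]`, supported in `(-2, 2)`. -/
noncomputable def ψ : ContDiffBump (0 : ℝ) :=
  { rIn := 1, rOut := 2, rIn_pos := by norm_num, rIn_lt_rOut := by norm_num }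

lemma η_zero {t : ℝ} (h : t ≤ 1 ∨ 2 ≤ t) : η t = 0 := by
  apply η.zero_of_le_dist
  rw [Real.dist_eq]
  change (1 / 2 : ℝ) ≤ _
  rcases h with h | h
  · rw [abs_of_nonpos (by linarith)]; linarith
  · rw [abs_of_nonneg (by linarith)]; linarith

lemma η_one {t : ℝ} (h1 : 5 / 4 ≤ t) (h2 : t ≤ 7 / 4) : η t = 1 := by
  apply η.one_of_mem_closedBall
  rw [mem_closedBall, Real.dist_eq]
  change _ ≤ (1 / 4 : ℝ)
  rw [abs_le]; constructor <;> linarith

lemma ψ_zero {t : ℝ} (h : 2 ≤ |t|) : ψ t = 0 := by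
  apply ψ.zero_of_le_dist
  rw [Real.dist_eq, sub_zero]
  exact h

lemma ψ_one {t : ℝ} (h : |t| ≤ 1) : ψ t = 1 := by
  apply ψ.one_of_mem_closedBall
  rw [mem_closedBall, Real.dist_eq, sub_zero]
  exact h

/-- Frequencies. -/
noncomputable def N (j : ℕ) : ℝ := 4 ^ j

/-- Scales. -/
noncomputable def R (j : ℕ) : ℝ := 8 * 4 ^ j

lemma N_pos (j : ℕ) : 0 < N j := by unfold N; positivity

lemma one_le_N (j : ℕ) : 1 ≤ N j := one_le_pow₀ (by norm_num)

lemma R_pos (j : ℕ) : 0 < R j := by unfold R; positivity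

lemma R_eq (j : ℕ) : R j = 8 * N j := rfl

lemma eight_le_R (j : ℕ) : 8 ≤ R j := by
  rw [R_eq]; linarith [one_le_N j]

/-- One block of the test function. -/
noncomputable def blk (j : ℕ) (y : E2) : ℝ :=
  η (y 0 / R j) * (ψ (y 1 / y 0) * Real.sin (N j * (y 1 / y 0)))

/-- The test function. -/
noncomputable def tf (J : ℕ) (y : E2) : ℝ := ∑ j ∈ Finset.range J, blk j y

lemma blk_ne_zero {j : ℕ} {y : E2} (h : blk j y ≠ 0) :
    R j < y 0 ∧ y 0 < 2 * R j ∧ |y 1 / y 0| < 2 := by
  unfold blk at h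
  have h1 : η (y 0 / R j) ≠ 0 := left_ne_zero_of_mul h
  have h2 : ψ (y 1 / y 0) ≠ 0 := left_ne_zero_of_mul (right_ne_zero_of_mul h)
  refine ⟨?_, ?_, ?_⟩
  · by_contra hcon
    push Not at hcon
    exact h1 (η_zero (Or.inl (by rw [div_le_one (R_pos j)]; exact hcon)))
  · by_contra hcon
    push Not at hcon
    exact h1 (η_zero (Or.inr (by rw [le_div_iff₀ (R_pos j)]; exact hcon)))
  · by_contra hcon
    push Not at hcon
    exact h2 (ψ_zero hcon)

lemma blk_contDiff (j : ℕ) : ContDiff ℝ 1 (blk j) := by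
  rw [contDiff_iff_contDiffAt]
  intro y
  have h0 : ContDiffAt ℝ 1 (fun y : E2 => y 0) y := by fun_prop
  have h1 : ContDiffAt ℝ 1 (fun y : E2 => y 1) y := by fun_prop
  by_cases hy : 0 < y 0
  · have hdiv : ContDiffAt ℝ 1 (fun y : E2 => y 1 / y 0) y := h1.div h0 hy.ne'
    unfold blk
    apply ContDiffAt.mul
    · exact (η.contDiff (n := 1)).contDiffAt.comp y (h0.div_const _)
    · apply ContDiffAt.mul
      · exact (ψ.contDiff (n := 1)).contDiffAt.comp y hdiv
      · exact (Real.contDiff_sin).contDiffAt.comp y (contDiffAt_const.mul hdiv)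
  · have hev : blk j =ᶠ[𝓝 y] fun _ => 0 := by
      have hopen : IsOpen {y : E2 | y 0 < R j} := isOpen_lt (by fun_prop) continuous_const
      have hmem : y ∈ {y : E2 | y 0 < R j} := by
        have := R_pos j
        change y 0 < R j
        linarith
      filter_upwards [hopen.mem_nhds hmem] with z hz
      by_contra hcon
      have := (blk_ne_zero hcon).1
      change z 0 < R j at hz
      linarith
    exact contDiffAt_const.congr_of_eventuallyEq hev

lemma R_mono {i j : ℕ} (h : i ≤ j) : R i ≤ R j := by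
  unfold R
  have : (4 : ℝ) ^ i ≤ 4 ^ j := pow_le_pow_right₀ (by norm_num) h
  linarith

lemma norm_le_of_blk_ne_zero {j : ℕ} {y : E2} (h : blk j y ≠ 0) : ‖y‖ ≤ 6 * R j := by
  obtain ⟨h1, h2, h3⟩ := blk_ne_zero h
  have hR := R_pos j
  have hy0 : 0 < y 0 := hR.trans h1
  rw [abs_div, abs_of_pos hy0, div_lt_iff₀ hy0] at h3
  apply le_of_sq_le_sq _ (by positivity)
  rw [← pt_coord y, norm_pt_sq, ← sq_abs (y 1)]
  have h4 : |y 1| ≤ 4 * R j := by linarith
  have h5 : |y 1| ^ 2 ≤ (4 * R j) ^ 2 := pow_le_pow_left₀ (abs_nonneg _) h4 2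
  have h6 : (y 0) ^ 2 ≤ (2 * R j) ^ 2 := pow_le_pow_left₀ hy0.le h2.le 2
  nlinarith

lemma tf_zero_of_far (J : ℕ) (z : E2) (hz : 6 * R J < ‖z‖) : tf J z = 0 := by
  unfold tf
  apply Finset.sum_eq_zero
  intro j hj
  by_contra hcon
  have h1 := norm_le_of_blk_ne_zero hcon
  have h2 := R_mono (Finset.mem_range.mp hj).le
  linarith

lemma tf_zero_of_near (J : ℕ) (z : E2) (hz : z 0 ≤ 8) : tf J z = 0 := by
  unfold tf
  apply Finset.sum_eq_zero
  intro j _
  by_contra hcon
  have h1 := (blk_ne_zero hcon).1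
  have := eight_le_R j
  linarith

lemma tf_contDiff (J : ℕ) : ContDiff ℝ 1 (tf J) := by
  unfold tf
  exact ContDiff.sum fun j _ => blk_contDiff j

lemma tf_continuous (J : ℕ) : Continuous (tf J) := (tf_contDiff J).continuous

lemma tf_hasCompactSupport (J : ℕ) : HasCompactSupport (tf J) := by
  apply HasCompactSupport.intro (isCompact_closedBall (0 : E2) (6 * R J))
  intro z hz
  rw [mem_closedBall, dist_zero_right, not_le] at hz
  exact tf_zero_of_far J z hz

lemma tf_lipschitz (J : ℕ) : ∃ L, LipschitzWith L (tf J) :=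
  (tf_contDiff J).lipschitzWith_of_hasCompactSupport (tf_hasCompactSupport J) (by norm_num)

lemma abs_blk_le (j : ℕ) (y : E2) : |blk j y| ≤ η (y 0 / R j) := by
  unfold blk
  rw [abs_mul, abs_mul, abs_of_nonneg η.nonneg, abs_of_nonneg ψ.nonneg]
  have h1 : ψ (y 1 / y 0) ≤ 1 := ψ.le_one
  have h2 : |Real.sin (N j * (y 1 / y 0))| ≤ 1 := Real.abs_sin_le_one _
  have h3 : ψ (y 1 / y 0) * |Real.sin (N j * (y 1 / y 0))| ≤ 1 :=
    mul_le_one₀ h1 (abs_nonneg _) h2
  calc η (y 0 / R j) * (ψ (y 1 / y 0) * |Real.sin (N j * (y 1 / y 0))|)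
      ≤ η (y 0 / R j) * 1 := by gcongr; exact η.nonneg
    _ = η (y 0 / R j) := mul_one _

lemma scale_sep {i j : ℕ} (h : i < j) : 4 * R i ≤ R j := by
  have := R_mono (show i + 1 ≤ j from h)
  have h2 : R (i + 1) = 4 * R i := by unfold R; ring
  linarith

/-- At most one scale is active. -/
lemma sum_η_le (J : ℕ) (a : ℝ) : ∑ j ∈ Finset.range J, η (a / R j) ≤ 1 := by
  by_cases h : ∃ j ∈ Finset.range J, η (a / R j) ≠ 0
  · obtain ⟨j, hj, hne⟩ := h
    rw [Finset.sum_eq_single_of_mem j hj]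
    · exact η.le_one
    · intro i _ hij
      by_contra hcon
      have key : ∀ k : ℕ, η (a / R k) ≠ 0 → R k < a ∧ a < 2 * R k := by
        intro k hk
        constructor
        · by_contra h
          push Not at h
          exact hk (η_zero (Or.inl (by rw [div_le_one (R_pos k)]; exact h)))
        · by_contra h
          push Not at h
          exact hk (η_zero (Or.inr (by rw [le_div_iff₀ (R_pos k)]; exact h)))
      obtain ⟨h1, h2⟩ := key j hne
      obtain ⟨h3, h4⟩ := key i hcon
      have hRi := R_pos i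
      have hRj := R_pos j
      rcases lt_or_gt_of_ne hij with h | h
      · have := scale_sep h; linarith
      · have := scale_sep h; linarith
  · push Not at h
    rw [Finset.sum_eq_zero h]
    norm_num

lemma abs_tf_le (J : ℕ) (y : E2) : |tf J y| ≤ 1 := by
  unfold tf
  calc |∑ j ∈ Finset.range J, blk j y| ≤ ∑ j ∈ Finset.range J, |blk j y| :=
        Finset.abs_sum_le_sum_abs _ _
    _ ≤ ∑ j ∈ Finset.range J, η (y 0 / R j) := Finset.sum_le_sum fun j _ => abs_blk_le j y
    _ ≤ 1 := sum_η_le J _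

/-! ### The cosine transform of `ψ` -/

/-- `Ψ ξ = ∫ ψ(s) cos(ξ s) ds`. -/
noncomputable def Ψ (ξ : ℝ) : ℝ := ∫ s, ψ s * Real.cos (ξ * s)

lemma ψ_continuous : Continuous (fun s => ψ s) := ψ.continuous

lemma integrable_ψ_mul {g : ℝ → ℝ} (hg : Continuous g) : Integrable (fun s => ψ s * g s) := by
  apply Continuous.integrable_of_hasCompactSupport (ψ_continuous.mul hg)
  exact ψ.hasCompactSupport.mul_right

lemma exists_Ψ_decay : ∃ C : ℝ, 0 ≤ C ∧ ∀ ξ : ℝ, |ξ| * |Ψ ξ| ≤ C := by
  have hd : ∀ s, HasDerivAt (fun s => ψ s) (deriv (fun s => ψ s) s) s := fun s =>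
    ((ψ.contDiff (n := 1)).differentiable (by norm_num) s).hasDerivAt
  have hdc : Continuous (deriv (fun s => ψ s)) := (ψ.contDiff (n := 1)).continuous_deriv (by norm_num)
  have hds : HasCompactSupport (deriv (fun s => ψ s)) := ψ.hasCompactSupport.deriv
  refine ⟨∫ s, |deriv (fun s => ψ s) s|, integral_nonneg fun s => abs_nonneg _, fun ξ => ?_⟩
  have h1 : ∫ s, ψ s * (ξ * Real.cos (ξ * s)) = -∫ s, deriv (fun s => ψ s) s * Real.sin (ξ * s) := by
    apply integral_mul_deriv_eq_deriv_mul_of_integrable (u := fun s => ψ s)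
      (v := fun s => Real.sin (ξ * s))
    · intro s _; exact hd s
    · intro s _
      have := ((hasDerivAt_id s).const_mul ξ).sin
      simpa [mul_comm] using this
    · exact integrable_ψ_mul (by fun_prop)
    · apply Continuous.integrable_of_hasCompactSupport
      · exact hdc.mul (by fun_prop)
      · exact hds.mul_right
    · exact integrable_ψ_mul (by fun_prop)
  have h2 : ∫ s, ψ s * (ξ * Real.cos (ξ * s)) = ξ * Ψ ξ := by
    unfold Ψ
    rw [← integral_const_mul]
    congr 1; funext s; ring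
  rw [h2] at h1
  rw [← abs_mul, h1, abs_neg]
  calc |∫ s, deriv (fun s => ψ s) s * Real.sin (ξ * s)|
      ≤ ∫ s, |deriv (fun s => ψ s) s * Real.sin (ξ * s)| := abs_integral_le_integral_abs
    _ ≤ ∫ s, |deriv (fun s => ψ s) s| := by
        apply integral_mono_of_nonneg
        · exact Eventually.of_forall fun s => abs_nonneg _
        · exact (hdc.integrable_of_hasCompactSupport hds).abs
        · refine Eventually.of_forall fun s => ?_
          simp only [abs_mul]
          exact mul_le_of_le_one_right (abs_nonneg _) (Real.abs_sin_le_one _)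

lemma one_le_Ψ {ξ : ℝ} (hξ : |ξ| ≤ 1 / 2) : 1 ≤ Ψ ξ := by
  have h1 : ∀ s, (Icc (-1 : ℝ) 1).indicator (fun _ => (1 / 2 : ℝ)) s ≤ ψ s * Real.cos (ξ * s) := by
    intro s
    by_cases hs2 : |s| ≤ 2
    · have h3 : |ξ * s| ≤ 1 := by
        rw [abs_mul]; nlinarith [abs_nonneg ξ, abs_nonneg s]
      have h4 : 1 / 2 ≤ Real.cos (ξ * s) := by
        have h5 := Real.one_sub_sq_div_two_le_cos (x := ξ * s)
        have h6 : (ξ * s) ^ 2 ≤ 1 := by
          rw [← sq_abs]; exact pow_le_one₀ (abs_nonneg _) h3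
        linarith
      by_cases hs : s ∈ Icc (-1 : ℝ) 1
      · rw [indicator_of_mem hs, ψ_one (abs_le.mpr hs), one_mul]
        exact h4
      · rw [indicator_of_notMem hs]
        exact mul_nonneg ψ.nonneg (by linarith)
    · push Not at hs2
      have hs : s ∉ Icc (-1 : ℝ) 1 := by
        intro hs
        have := abs_le.mpr hs
        linarith
      rw [indicator_of_notMem hs, ψ_zero hs2.le, zero_mul]
  have h2 : ∫ s, (Icc (-1 : ℝ) 1).indicator (fun _ => (1 / 2 : ℝ)) s = 1 := by
    rw [integral_indicator measurableSet_Icc]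
    simp
    norm_num
  rw [← h2]
  unfold Ψ
  apply integral_mono _ (integrable_ψ_mul (by fun_prop)) h1
  rw [integrable_indicator_iff measurableSet_Icc]
  exact integrableOn_const (by simp)

/-- The angular integral. -/
lemma angular (n m θ : ℝ) :
    ∫ s, ψ s * (Real.sin (n * s) * Real.cos (m * s - θ)) =
      Real.sin θ * ((Ψ (m - n) - Ψ (m + n)) / 2) := by
  have h1 : ∀ s, ψ s * (Real.sin (n * s) * Real.cos (m * s - θ)) =
      Real.cos θ * (ψ s * (Real.sin (n * s) * Real.cos (m * s))) +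
      Real.sin θ * (((ψ s * Real.cos ((m - n) * s)) - (ψ s * Real.cos ((m + n) * s))) / 2) := by
    intro s
    have e1 : (m - n) * s = m * s - n * s := by ring
    have e2 : (m + n) * s = m * s + n * s := by ring
    rw [e1, e2, Real.cos_sub, Real.cos_sub, Real.cos_add]
    ring
  have h2 : ∫ s, ψ s * (Real.sin (n * s) * Real.cos (m * s)) = 0 := by
    set F : ℝ → ℝ := fun s => ψ s * (Real.sin (n * s) * Real.cos (m * s)) with hF
    have h3 : ∀ s, F (-s) = -F s := by
      intro s
      simp only [hF]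
      rw [ψ.neg, mul_neg, mul_neg, Real.sin_neg, Real.cos_neg]
      ring
    have h4 : ∫ s, F s = -∫ s, F s := by
      conv_lhs => rw [← integral_neg_eq_self]
      rw [← integral_neg]
      exact integral_congr_ae (Eventually.of_forall h3)
    linarith
  simp_rw [h1]
  have i1 : Integrable fun s => ψ s * (Real.sin (n * s) * Real.cos (m * s)) :=
    integrable_ψ_mul (by fun_prop)
  have i2 : Integrable fun s => ψ s * Real.cos ((m - n) * s) := integrable_ψ_mul (by fun_prop)
  have i3 : Integrable fun s => ψ s * Real.cos ((m + n) * s) := integrable_ψ_mul (by fun_prop)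
  have i4 : Integrable fun s => Real.sin θ *
      (((ψ s * Real.cos ((m - n) * s)) - (ψ s * Real.cos ((m + n) * s))) / 2) :=
    ((i2.sub i3).div_const 2).const_mul _
  rw [integral_add (i1.const_mul _) i4, integral_const_mul,
    integral_const_mul, h2, integral_div, integral_sub i2 i3]
  unfold Ψ
  ring

end Pool.Agent.H58.Rough
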